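import Mathlib

set_option autoImplicit false

/-!
# The free group of rank `n` embeds in the free group of rank two
-/

namespace Pool.Agent.H12RelFree

open FreeGroup

/-- `x_i ↦ x^i y x^{-i}` -/
def emb (n : ℕ) : FreeGroup (Fin n) →* FreeGroup Bool :=
  FreeGroup.lift fun i => (of false) ^ (i : ℕ) * of true * ((of false) ^ (i : ℕ))⁻¹

/-- the shift automorphism of the free group on `ℤ` -/
def shiftAut : MulAut (FreeGroup ℤ) := FreeGroup.freeGroupCongr (Equiv.addRight (1 : ℤ))

/-- action of the infinite cyclic group by shifts -/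
def shiftHom : Multiplicative ℤ →* MulAut (FreeGroup ℤ) := zpowersHom _ shiftAut

/-- the map to the semidirect product -/
def toSemi : FreeGroup Bool →* (FreeGroup ℤ ⋊[shiftHom] Multiplicative ℤ) :=
  FreeGroup.lift fun i => cond i (SemidirectProduct.inl (of 0))
    (SemidirectProduct.inr (Multiplicative.ofAdd 1))

theorem shiftAut_pow (k : ℕ) : (shiftAut ^ k) (of (0 : ℤ)) = of (k : ℤ) := by
  induction k with
  | zero => simp
  | succ k ih =>
    rw [pow_succ', MulAut.mul_apply, ih]
    simp [shiftAut]

theorem toSemi_emb (n : ℕ) (w : FreeGroup (Fin n)) :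
    toSemi (emb n w) = SemidirectProduct.inl (FreeGroup.map (fun i : Fin n => ((i : ℕ) : ℤ)) w) := by
  have : (toSemi.comp (emb n)) = (SemidirectProduct.inl).comp
      (FreeGroup.map (fun i : Fin n => ((i : ℕ) : ℤ))) := by
    ext1 i
    simp only [MonoidHom.comp_apply, emb, toSemi, FreeGroup.lift_apply_of, FreeGroup.map.of]
    have h := SemidirectProduct.inl_aut (φ := shiftHom) (Multiplicative.ofAdd (1:ℤ) ^ (i : ℕ)) (of 0)
    have h2 : shiftHom (Multiplicative.ofAdd (1:ℤ) ^ (i : ℕ)) (of 0) = of (((i : ℕ)) : ℤ) := by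
      rw [map_pow]
      have : shiftHom (Multiplicative.ofAdd (1:ℤ)) = shiftAut := by
        simp [shiftHom]
      rw [this, shiftAut_pow]
    rw [h2] at h
    rw [h]
    simp
  exact DFunLike.congr_fun this w

theorem emb_injective (n : ℕ) : Function.Injective (emb n) := by
  have h1 : Function.Injective (toSemi.comp (emb n)) := by
    intro a b hab
    simp only [MonoidHom.comp_apply, toSemi_emb] at hab
    have h2 := SemidirectProduct.inl_injective hab
    refine FreeGroup.map_injective ?_ h2
    intro i j hij
    have h3 : ((i : ℕ) : ℤ) = ((j : ℕ) : ℤ) := hij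
    exact Fin.ext (by exact_mod_cast h3)
  exact Function.Injective.of_comp h1

end Pool.Agent.H12RelFree
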