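import Mathlib

set_option autoImplicit false

/-!
# Free subgroups of HNN extensions
If both associated subgroups are proper then the stable letter `t` and `b' t b` freely generate
a free group, where `b ∉ A`, `b' ∉ B`.
-/

namespace Pool.Agent.H12RelFree

open HNNExtension

section HNN

variable {G : Type} [Group G] {A B : Subgroup G}

/-- sign of a letter -/
def sg (s : Bool) : ℤˣ := cond s 1 (-1)

/-- head of a letter -/
def hd (b b' : G) : Bool × Bool → G
  | (false, _) => 1
  | (true, true) => b'
  | (true, false) => b⁻¹

/-- tail of a letter -/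
def tl (b b' : G) : Bool × Bool → G
  | (false, _) => 1
  | (true, true) => b
  | (true, false) => b'⁻¹

/-- conversion of a word in the two free generators to an HNN word -/
def conv (b b' : G) : List (Bool × Bool) → List (ℤˣ × G)
  | [] => []
  | [a] => [(sg a.2, tl b b' a)]
  | (a :: c :: l) => (sg a.2, tl b b' a * hd b b' c) :: conv b b' (c :: l)

theorem conv_cons_head (b b' : G) (a : Bool × Bool) (l : List (Bool × Bool)) :
    ∃ g l', conv b b' (a :: l) = (sg a.2, g) :: l' := by
  cases l with
  | nil => exact ⟨_, _, rfl⟩
  | cons c l => exact ⟨_, _, rfl⟩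

theorem conv_prod (φ : A ≃* B) (b b' : G) (a : Bool × Bool) (l : List (Bool × Bool)) :
    (((a :: l).map fun x : Bool × Bool =>
        cond x.2 (cond x.1 (of b' * t * of b) t : HNNExtension G A B φ)
          (cond x.1 (of b' * t * of b) t)⁻¹).prod) =
      of (hd b b' a) * ((conv b b' (a :: l)).map
        (fun x => (t : HNNExtension G A B φ) ^ (x.1 : ℤ) * of x.2)).prod := by
  induction l generalizing a with
  | nil =>
    rcases a with ⟨_ | _, _ | _⟩ <;> simp [conv, hd, tl, sg, mul_assoc]
  | cons c l ih =>
    rw [List.map_cons, List.prod_cons, ih c]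
    simp only [conv, List.map_cons, List.prod_cons, map_mul]
    rcases a with ⟨_ | _, _ | _⟩ <;> simp [hd, tl, sg, mul_assoc]

theorem conv_chain {b b' : G} (hb : b ∉ A) (hb' : b' ∉ B) (l : List (Bool × Bool))
    (hl : FreeGroup.IsReduced l) :
    (conv b b' l).IsChain (fun a c => a.2 ∈ toSubgroup A B a.1 → a.1 = c.1) := by
  induction l with
  | nil => exact List.isChain_nil
  | cons a l ih =>
    cases l with
    | nil => exact List.isChain_singleton _
    | cons c l =>
      have hl' : FreeGroup.IsReduced (c :: l) := by
        unfold FreeGroup.IsReduced at hl ⊢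
        exact (List.isChain_cons_cons.1 hl).2
      have hac : a.1 = c.1 → a.2 = c.2 := by
        unfold FreeGroup.IsReduced at hl
        exact (List.isChain_cons_cons.1 hl).1
      obtain ⟨g, l', h⟩ := conv_cons_head b b' c l
      have ih' := ih hl'
      rw [h] at ih'
      show ((sg a.2, tl b b' a * hd b b' c) :: conv b b' (c :: l)).IsChain _
      rw [h]
      refine List.isChain_cons_cons.2 ⟨?_, ih'⟩
      rcases a with ⟨_ | _, _ | _⟩ <;> rcases c with ⟨_ | _, _ | _⟩ <;>
        simp_all [hd, tl, sg]

theorem hnn_free (φ : A ≃* B) {b b' : G} (hb : b ∉ A) (hb' : b' ∉ B) :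
    Function.Injective (FreeGroup.lift
      (fun i : Bool => (cond i (of b' * t * of b) t : HNNExtension G A B φ))) := by
  rw [injective_iff_map_eq_one]
  intro w hw
  by_contra hne
  have hred : FreeGroup.IsReduced w.toWord := FreeGroup.isReduced_toWord
  have hword : w.toWord ≠ [] := by
    intro h
    exact hne (FreeGroup.toWord_eq_nil_iff.1 h)
  obtain ⟨a, l, hal⟩ := List.exists_cons_of_ne_nil hword
  have h1 : FreeGroup.lift
      (fun i : Bool => (cond i (of b' * t * of b) t : HNNExtension G A B φ)) w =
      (((a :: l).map fun x : Bool × Bool =>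
        cond x.2 (cond x.1 (of b' * t * of b) t : HNNExtension G A B φ)
          (cond x.1 (of b' * t * of b) t)⁻¹).prod) := by
    conv_lhs => rw [← FreeGroup.mk_toWord (x := w), hal]
    rw [FreeGroup.lift_mk]
  rw [h1, conv_prod φ b b' a l] at hw
  rw [hal] at hred
  let W : NormalWord.ReducedWord G A B := ⟨hd b b' a, conv b b' (a :: l), conv_chain hb hb' _ hred⟩
  have hW : W.prod φ = 1 := hw
  have := ReducedWord.toList_eq_nil_of_mem_of_range φ W (by rw [hW]; exact one_mem _)
  obtain ⟨g, l', h⟩ := conv_cons_head b b' a l
  have h2 : W.toList = (sg a.2, g) :: l' := h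
  rw [this] at h2
  exact List.cons_ne_nil _ _ h2.symm

end HNN

end Pool.Agent.H12RelFree
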