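import Mathlib
import Pool.Agent.H12_RelFree.HNNFree
import Pool.Agent.H12_RelFree.Embed

set_option autoImplicit false

/-!
# A finitely presented relatively free group of rank two satisfies a Milnor law
-/

namespace Pool.Agent.H12RelFree


/-- the free group of rank two -/
abbrev F2 := FreeGroup Bool

/-- first generator -/
abbrev X : F2 := FreeGroup.of false
/-- second generator -/
abbrev Y : F2 := FreeGroup.of true

/-- the conjugate `x^j y x^{-j}` in any group -/
def cj {G : Type} [Group G] (x y : G) (j : ℕ) : G := x ^ j * y * (x ^ j)⁻¹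

/-- subgroup generated by `x^j y x^{-j}`, `j < m` -/
def E {G : Type} [Group G] (x y : G) (m : ℕ) : Subgroup G :=
  Subgroup.closure {g | ∃ j : ℕ, j < m ∧ g = cj x y j}

/-- subgroup generated by `x^j y x^{-j}`, `1 ≤ j ≤ m` -/
def E' {G : Type} [Group G] (x y : G) (m : ℕ) : Subgroup G :=
  Subgroup.closure {g | ∃ j : ℕ, j < m ∧ g = cj x y (j + 1)}

theorem cj_mem_E {G : Type} [Group G] (x y : G) {m j : ℕ} (h : j < m) : cj x y j ∈ E x y m :=
  Subgroup.subset_closure ⟨j, h, rfl⟩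

theorem cj_mem_E' {G : Type} [Group G] (x y : G) {m j : ℕ} (h : j < m) :
    cj x y (j + 1) ∈ E' x y m :=
  Subgroup.subset_closure ⟨j, h, rfl⟩

theorem map_cj {G H : Type} [Group G] [Group H] (f : G →* H) (x y : G) (j : ℕ) :
    f (cj x y j) = cj (f x) (f y) j := by
  simp [cj]

theorem map_E {G H : Type} [Group G] [Group H] (f : G →* H) (x y : G) (m : ℕ) :
    (E x y m).map f = E (f x) (f y) m := by
  unfold E
  rw [MonoidHom.map_closure]
  congr 1
  ext g
  constructor
  · rintro ⟨_, ⟨j, hj, rfl⟩, rfl⟩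
    exact ⟨j, hj, map_cj f x y j⟩
  · rintro ⟨j, hj, rfl⟩
    exact ⟨cj x y j, ⟨j, hj, rfl⟩, map_cj f x y j⟩

theorem map_E' {G H : Type} [Group G] [Group H] (f : G →* H) (x y : G) (m : ℕ) :
    (E' x y m).map f = E' (f x) (f y) m := by
  unfold E'
  rw [MonoidHom.map_closure]
  congr 1
  ext g
  constructor
  · rintro ⟨_, ⟨j, hj, rfl⟩, rfl⟩
    exact ⟨j, hj, map_cj f x y _⟩
  · rintro ⟨j, hj, rfl⟩
    exact ⟨cj x y _, ⟨j, hj, rfl⟩, map_cj f x y _⟩

theorem E_mono {G : Type} [Group G] (x y : G) {m m' : ℕ} (h : m ≤ m') : E x y m ≤ E x y m' := by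
  unfold E
  apply Subgroup.closure_mono
  rintro g ⟨j, hj, rfl⟩
  exact ⟨j, lt_of_lt_of_le hj h, rfl⟩

theorem E'_le {G : Type} [Group G] (x y : G) (m : ℕ) : E' x y m ≤ E x y (m + 1) := by
  unfold E' E
  apply Subgroup.closure_mono
  rintro g ⟨j, hj, rfl⟩
  exact ⟨j + 1, by omega, rfl⟩

theorem conj_cj {G : Type} [Group G] (x y : G) (j : ℕ) : x * cj x y j * x⁻¹ = cj x y (j + 1) := by
  simp only [cj, pow_succ', mul_inv_rev]
  group

theorem conj_mem_E' {G : Type} [Group G] (x y : G) {m : ℕ} {g : G} (h : g ∈ E x y m) :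
    x * g * x⁻¹ ∈ E' x y m := by
  unfold E at h
  induction h using Subgroup.closure_induction with
  | mem g hg =>
    obtain ⟨j, hj, rfl⟩ := hg
    rw [conj_cj]
    exact cj_mem_E' x y hj
  | one => simp
  | mul a b _ _ ha hb =>
    have : x * (a * b) * x⁻¹ = (x * a * x⁻¹) * (x * b * x⁻¹) := by group
    rw [this]; exact mul_mem ha hb
  | inv a _ ha =>
    have : x * a⁻¹ * x⁻¹ = (x * a * x⁻¹)⁻¹ := by group
    rw [this]; exact inv_mem ha

theorem conj_mem_E {G : Type} [Group G] (x y : G) {m : ℕ} {g : G} (h : g ∈ E' x y m) :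
    x⁻¹ * g * x ∈ E x y m := by
  unfold E' at h
  induction h using Subgroup.closure_induction with
  | mem g hg =>
    obtain ⟨j, hj, rfl⟩ := hg
    rw [← conj_cj]
    have : x⁻¹ * (x * cj x y j * x⁻¹) * x = cj x y j := by group
    rw [this]
    exact cj_mem_E x y hj
  | one => simp
  | mul a b _ _ ha hb =>
    have : x⁻¹ * (a * b) * x = (x⁻¹ * a * x) * (x⁻¹ * b * x) := by group
    rw [this]; exact mul_mem ha hb
  | inv a _ ha =>
    have : x⁻¹ * a⁻¹ * x = (x⁻¹ * a * x)⁻¹ := by group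
    rw [this]; exact inv_mem ha

/-! ### The kernel of the exponent sum of `x` -/

/-- exponent sum of `x` -/
def eps : F2 →* Multiplicative ℤ := FreeGroup.lift fun i => cond i 1 (Multiplicative.ofAdd 1)

/-- generated by `x^j y x^{-j}` with `|j| ≤ L` -/
def CC (L : ℕ) : Subgroup F2 :=
  Subgroup.closure {g | ∃ j : ℤ, |j| ≤ L ∧ g = X ^ j * Y * (X ^ j)⁻¹}

theorem CC_mono {L L' : ℕ} (h : L ≤ L') : CC L ≤ CC L' := by
  unfold CC
  apply Subgroup.closure_mono
  rintro g ⟨j, hj, rfl⟩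
  exact ⟨j, le_trans hj (by exact_mod_cast h), rfl⟩

theorem CC_conj (L : ℕ) (e : ℤ) {g : F2} (hg : g ∈ CC L) :
    X ^ e * g * (X ^ e)⁻¹ ∈ CC (L + e.natAbs) := by
  unfold CC at hg
  induction hg using Subgroup.closure_induction with
  | mem g hg =>
    obtain ⟨j, hj, rfl⟩ := hg
    refine Subgroup.subset_closure ⟨e + j, ?_, ?_⟩
    · push_cast
      calc |e + j| ≤ |e| + |j| := abs_add_le _ _
        _ ≤ |e| + L := by omega
        _ = L + |e| := by ring
    · rw [zpow_add]; group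
  | one => simp
  | mul a b _ _ ha hb =>
    have : X ^ e * (a * b) * (X ^ e)⁻¹ = (X ^ e * a * (X ^ e)⁻¹) * (X ^ e * b * (X ^ e)⁻¹) := by group
    rw [this]; exact mul_mem ha hb
  | inv a _ ha =>
    have : X ^ e * a⁻¹ * (X ^ e)⁻¹ = (X ^ e * a * (X ^ e)⁻¹)⁻¹ := by group
    rw [this]; exact inv_mem ha

theorem exists_CC (w : F2) :
    ∃ L : ℕ, w * X ^ (-(Multiplicative.toAdd (eps w))) ∈ CC L := by
  induction w using FreeGroup.induction_on with
  | C1 => exact ⟨0, by simp⟩
  | of i =>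
    cases i with
    | false => exact ⟨0, by simp [eps]⟩
    | true =>
      refine ⟨0, ?_⟩
      have : Y * X ^ (-(Multiplicative.toAdd (eps Y))) = Y := by simp [eps]
      show Y * X ^ (-(Multiplicative.toAdd (eps Y))) ∈ _
      rw [this]
      exact Subgroup.subset_closure ⟨0, by simp, by simp⟩
  | inv_of i ih =>
    cases i with
    | false => exact ⟨0, by simp [eps]⟩
    | true =>
      refine ⟨0, ?_⟩
      have : Y⁻¹ * X ^ (-(Multiplicative.toAdd (eps Y⁻¹))) = Y⁻¹ := by simp [eps]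
      show Y⁻¹ * X ^ (-(Multiplicative.toAdd (eps Y⁻¹))) ∈ _
      rw [this]
      exact inv_mem (Subgroup.subset_closure ⟨0, by simp, by simp⟩)
  | mul a b ha hb =>
    obtain ⟨L1, h1⟩ := ha
    obtain ⟨L2, h2⟩ := hb
    set e1 := Multiplicative.toAdd (eps a)
    set e2 := Multiplicative.toAdd (eps b)
    have he : Multiplicative.toAdd (eps (a * b)) = e1 + e2 := by simp [e1, e2]
    rw [he]
    refine ⟨max L1 (L2 + e1.natAbs), ?_⟩
    have h3 := CC_conj L2 e1 h2
    have : a * b * X ^ (-(e1 + e2)) =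
        (a * X ^ (-e1)) * (X ^ e1 * (b * X ^ (-e2)) * (X ^ e1)⁻¹) := by
      rw [neg_add, zpow_add]
      have hc : X ^ (-e1) * X ^ (-e2) = X ^ (-e2) * X ^ (-e1) := by
        rw [← zpow_add, ← zpow_add, add_comm]
      rw [hc]; group
    rw [this]
    exact mul_mem (CC_mono (le_max_left _ _) h1) (CC_mono (le_max_right _ _) h3)

theorem CC_shift {L L' : ℕ} (h : L ≤ L') {g : F2} (hg : g ∈ CC L) :
    X ^ L' * g * (X ^ L')⁻¹ ∈ E X Y (2 * L' + 1) := by
  unfold CC at hg
  induction hg using Subgroup.closure_induction with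
  | mem g hg =>
    obtain ⟨j, hj, rfl⟩ := hg
    have hj' := abs_le.1 hj
    refine Subgroup.subset_closure ⟨((L' : ℤ) + j).toNat, ?_, ?_⟩
    · omega
    · unfold cj
      have : (((L' : ℤ) + j).toNat : ℤ) = (L' : ℤ) + j := Int.toNat_of_nonneg (by omega)
      rw [← zpow_natCast X (((L' : ℤ) + j).toNat), this, zpow_add, ← zpow_natCast X L']
      group
  | one => simp
  | mul a b _ _ ha hb =>
    have : X ^ L' * (a * b) * (X ^ L')⁻¹ = (X ^ L' * a * (X ^ L')⁻¹) * (X ^ L' * b * (X ^ L')⁻¹) := by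
      group
    rw [this]; exact mul_mem ha hb
  | inv a _ ha =>
    have : X ^ L' * a⁻¹ * (X ^ L')⁻¹ = (X ^ L' * a * (X ^ L')⁻¹)⁻¹ := by group
    rw [this]; exact inv_mem ha

theorem exists_shift (S : Finset F2) (hS : ∀ s ∈ S, eps s = 1) :
    ∃ L : ℕ, ∀ s ∈ S, X ^ L * s * (X ^ L)⁻¹ ∈ E X Y (2 * L + 1) := by
  classical
  choose f hf using exists_CC
  refine ⟨S.sup f, fun s hs => ?_⟩
  have h1 := hf s
  rw [hS s hs] at h1
  simp only [toAdd_one, neg_zero, zpow_zero, mul_one] at h1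
  exact CC_shift (Finset.le_sup hs) h1

/-! ### The HNN decomposition -/

section HNN

variable (N : Subgroup F2) [N.Normal] (m : ℕ)

/-- image of `x` -/
abbrev xb : F2 ⧸ N := QuotientGroup.mk X
/-- image of `y` -/
abbrev yb : F2 ⧸ N := QuotientGroup.mk Y

/-- base group -/
abbrev BB : Subgroup (F2 ⧸ N) := E (xb N) (yb N) (m + 1)

/-- first associated subgroup -/
abbrev AA : Subgroup (BB N m) := (E (xb N) (yb N) m).subgroupOf (BB N m)

/-- second associated subgroup -/
abbrev AA' : Subgroup (BB N m) := (E' (xb N) (yb N) m).subgroupOf (BB N m)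

/-- the isomorphism of the associated subgroups -/
def phi : AA N m ≃* AA' N m where
  toFun a := ⟨⟨xb N * a.1.1 * (xb N)⁻¹, E'_le _ _ _ (conj_mem_E' _ _ a.2)⟩, conj_mem_E' _ _ a.2⟩
  invFun a := ⟨⟨(xb N)⁻¹ * a.1.1 * (xb N), E_mono _ _ (Nat.le_succ m) (conj_mem_E _ _ a.2)⟩,
    conj_mem_E _ _ a.2⟩
  left_inv a := by
    apply Subtype.ext; apply Subtype.ext
    show (xb N)⁻¹ * (xb N * a.1.1 * (xb N)⁻¹) * (xb N) = _
    group
  right_inv a := by
    apply Subtype.ext; apply Subtype.ext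
    show (xb N) * ((xb N)⁻¹ * a.1.1 * (xb N)) * (xb N)⁻¹ = _
    group
  map_mul' a b := by
    apply Subtype.ext; apply Subtype.ext
    show xb N * (a.1.1 * b.1.1) * (xb N)⁻¹ = (xb N * a.1.1 * (xb N)⁻¹) * (xb N * b.1.1 * (xb N)⁻¹)
    group

/-- the HNN extension -/
abbrev HH := HNNExtension (BB N m) (AA N m) (AA' N m) (phi N m)

theorem yb_mem : yb N ∈ BB N m := by
  have : yb N = cj (xb N) (yb N) 0 := by simp [cj]
  rw [this]; exact cj_mem_E _ _ (Nat.succ_pos m)

/-- the map from the free group to the HNN extension -/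
def Psi : F2 →* HH N m :=
  FreeGroup.lift fun i => cond i (HNNExtension.of ⟨yb N, yb_mem N m⟩) HNNExtension.t

theorem Psi_cj (j : ℕ) (hj : j < m + 1) :
    Psi N m (cj X Y j) = HNNExtension.of ⟨cj (xb N) (yb N) j, cj_mem_E _ _ hj⟩ := by
  induction j with
  | zero =>
    have h1 : cj X Y 0 = Y := by simp [cj]
    rw [h1]
    have h2 : (⟨cj (xb N) (yb N) 0, cj_mem_E _ _ hj⟩ : BB N m) = ⟨yb N, yb_mem N m⟩ := by
      apply Subtype.ext; simp [cj]
    rw [h2]
    simp [Psi]
  | succ j ih =>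
    have ih' := ih (by omega)
    rw [← conj_cj, map_mul, map_mul, ih', map_inv]
    have hX : Psi N m X = HNNExtension.t := by simp [Psi]
    rw [hX]
    let a : AA N m := ⟨⟨cj (xb N) (yb N) j, cj_mem_E _ _ (by omega)⟩,
      cj_mem_E _ _ (show j < m by omega)⟩
    have := HNNExtension.equiv_eq_conj (φ := phi N m) a
    have h3 : ((phi N m a : AA' N m) : BB N m) = ⟨cj (xb N) (yb N) (j + 1), cj_mem_E _ _ hj⟩ := by
      apply Subtype.ext
      show xb N * cj (xb N) (yb N) j * (xb N)⁻¹ = _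
      rw [conj_cj]
    rw [h3] at this
    rw [this]

theorem Psi_E (w : F2) (hw : w ∈ E X Y (m + 1)) :
    ∃ h : (QuotientGroup.mk w : F2 ⧸ N) ∈ BB N m,
      Psi N m w = HNNExtension.of ⟨QuotientGroup.mk w, h⟩ := by
  unfold E at hw
  induction hw using Subgroup.closure_induction with
  | mem g hg =>
    obtain ⟨j, hj, rfl⟩ := hg
    have h1 : (QuotientGroup.mk (cj X Y j) : F2 ⧸ N) = cj (xb N) (yb N) j :=
      map_cj (QuotientGroup.mk' N) X Y j
    refine ⟨by rw [h1]; exact cj_mem_E _ _ hj, ?_⟩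
    rw [Psi_cj N m j hj]
    exact congrArg _ (Subtype.ext h1.symm)
  | one => 
    refine ⟨one_mem _, ?_⟩
    rw [map_one]
    exact (map_one (HNNExtension.of : BB N m →* HH N m)).symm
  | mul a b _ _ ha hb =>
    obtain ⟨h1, h2⟩ := ha
    obtain ⟨h3, h4⟩ := hb
    refine ⟨mul_mem h1 h3, ?_⟩
    rw [map_mul, h2, h4, ← map_mul]
    rfl
  | inv a _ ha =>
    obtain ⟨h1, h2⟩ := ha
    refine ⟨inv_mem h1, ?_⟩
    rw [map_inv, h2, ← map_inv]
    rfl

theorem Psi_kills {S : Finset F2} (hS : Subgroup.normalClosure (S : Set F2) = N)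
    {L : ℕ} (hL : ∀ s ∈ S, X ^ L * s * (X ^ L)⁻¹ ∈ E X Y (2 * L + 1)) :
    N ≤ (Psi N (2 * L)).ker := by
  have key : Subgroup.normalClosure (S : Set F2) ≤ (Psi N (2 * L)).ker := by
    refine Subgroup.normalClosure_le_normal ?_
    intro s hs
    obtain ⟨h1, h2⟩ := Psi_E N (2 * L) _ (hL s hs)
    have hsN : s ∈ N := by
      rw [← hS]; exact Subgroup.subset_normalClosure hs
    have h3 : (QuotientGroup.mk (X ^ L * s * (X ^ L)⁻¹) : F2 ⧸ N) = 1 := by
      rw [QuotientGroup.eq_one_iff]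
      exact (inferInstance : N.Normal).conj_mem _ hsN _
    have h4 : Psi N (2 * L) (X ^ L * s * (X ^ L)⁻¹) = 1 := by
      rw [h2]
      have : (⟨QuotientGroup.mk (X ^ L * s * (X ^ L)⁻¹), h1⟩ : BB N (2 * L)) = 1 := Subtype.ext h3
      rw [this, map_one]
    rw [map_mul, map_mul, map_inv] at h4
    show s ∈ (Psi _ _).ker
    rw [MonoidHom.mem_ker]
    have h5 : Psi N (2 * L) (X ^ L) * Psi N (2 * L) s = Psi N (2 * L) (X ^ L) :=
      mul_inv_eq_one.1 h4
    exact mul_eq_left.1 h5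
  intro w hw
  have hw' : w ∈ Subgroup.normalClosure (S : Set F2) := by rw [hS]; exact hw
  exact key hw'

/-- the induced map on the quotient -/
def PsiBar {L : ℕ} (h : N ≤ (Psi N (2 * L)).ker) : F2 ⧸ N →* HH N (2 * L) :=
  QuotientGroup.lift N (Psi N (2 * L)) h

theorem PsiBar_base {L : ℕ} (h : N ≤ (Psi N (2 * L)).ker) (b : BB N (2 * L)) :
    PsiBar N h b.1 = HNNExtension.of b := by
  obtain ⟨b, hb⟩ := b
  have h1 : b ∈ (E X Y (2 * L + 1)).map (QuotientGroup.mk' N) := by
    rw [map_E]; exact hb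
  obtain ⟨w, hw, rfl⟩ := h1
  obtain ⟨h2, h3⟩ := Psi_E N (2 * L) w hw
  exact h3

theorem PsiBar_t {L : ℕ} (h : N ≤ (Psi N (2 * L)).ker) :
    PsiBar N h (xb N) = HNNExtension.t := by
  show Psi N (2 * L) X = _
  simp [Psi]

/-- dichotomy: one of the associated subgroups is everything -/
theorem assoc_top (hfi : ∀ θ : F2 →* F2, ∀ w ∈ N, θ w ∈ N) (hN : N ≠ ⊥)
    {L : ℕ} (h : N ≤ (Psi N (2 * L)).ker) :
    AA N (2 * L) = ⊤ ∨ AA' N (2 * L) = ⊤ := by
  by_contra hcon
  push Not at hcon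
  obtain ⟨hA, hA'⟩ := hcon
  obtain ⟨b, hb⟩ : ∃ b, b ∉ AA N (2 * L) := by
    by_contra hall
    push Not at hall
    exact hA ((Subgroup.eq_top_iff' _).2 hall)
  obtain ⟨b', hb'⟩ : ∃ b, b ∉ AA' N (2 * L) := by
    by_contra hall
    push Not at hall
    exact hA' ((Subgroup.eq_top_iff' _).2 hall)
  have hfree := hnn_free (phi N (2 * L)) hb hb'
  -- the corresponding map to the quotient
  obtain ⟨v, hv⟩ := QuotientGroup.mk_surjective (b'.1 * xb N * b.1)
  let θ : F2 →* F2 := FreeGroup.lift fun i => cond i v X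
  have hcomp : (PsiBar N h).comp ((QuotientGroup.mk' N).comp θ) =
      FreeGroup.lift (fun i : Bool => (cond i (HNNExtension.of b' * HNNExtension.t *
        HNNExtension.of b) HNNExtension.t : HH N (2 * L))) := by
    ext i
    cases i with
    | false =>
      simp only [MonoidHom.comp_apply, θ, FreeGroup.lift_apply_of, cond_false]
      exact PsiBar_t N h
    | true =>
      simp only [MonoidHom.comp_apply, θ, FreeGroup.lift_apply_of, cond_true]
      show PsiBar N h (QuotientGroup.mk v) = _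
      rw [hv, map_mul, map_mul, PsiBar_base, PsiBar_base, PsiBar_t]
  apply hN
  rw [eq_bot_iff]
  intro w hw
  have h1 : (QuotientGroup.mk (θ w) : F2 ⧸ N) = 1 := by
    rw [QuotientGroup.eq_one_iff]; exact hfi θ w hw
  have h2 : (PsiBar N h).comp ((QuotientGroup.mk' N).comp θ) w = 1 := by
    show PsiBar N h (QuotientGroup.mk (θ w)) = 1
    rw [h1, map_one]
  rw [hcomp] at h2
  rw [Subgroup.mem_bot]
  exact (injective_iff_map_eq_one _).1 hfree w h2

end HNN

/-- A Milnor law: a relation `x^m y x^{-m} = c` with `c` in the subgroup generated by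
`x^j y x^{-j}`, `0 ≤ j < m`. -/
def MilnorLaw (N : Subgroup F2) : Prop :=
  ∃ m : ℕ, ∃ c ∈ E X Y m, cj X Y m * c⁻¹ ∈ N

/-- Key step: f.p. relatively free group of rank two with all relators of exponent sum zero in `x`
satisfies a Milnor law. -/
theorem milnor_of_fp (N : Subgroup F2) [hNn : N.Normal] (hfi : ∀ θ : F2 →* F2, ∀ w ∈ N, θ w ∈ N)
    (hN : N ≠ ⊥) (S : Finset F2) (hS : Subgroup.normalClosure (S : Set F2) = N)
    (heps : ∀ w ∈ N, eps w = 1) : MilnorLaw N := by
  obtain ⟨L, hL⟩ := exists_shift S (fun s hs => heps s (by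
    rw [← hS]; exact Subgroup.subset_normalClosure hs))
  have hk := Psi_kills N hS hL
  rcases assoc_top N hfi hN hk with h | h
  · -- x^m y x^-m in E
    have hmem : (⟨cj (xb N) (yb N) (2 * L), cj_mem_E _ _ (by omega)⟩ : BB N (2 * L)) ∈ AA N (2 * L) := by
      rw [h]; trivial
    have h1 : cj (xb N) (yb N) (2 * L) ∈ E (xb N) (yb N) (2 * L) := hmem
    have h2 : E (xb N) (yb N) (2 * L) = (E X Y (2 * L)).map (QuotientGroup.mk' N) := by
      rw [map_E]; rfl
    rw [h2] at h1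
    obtain ⟨c, hc, hc2⟩ := h1
    refine ⟨2 * L, c, hc, ?_⟩
    rw [← QuotientGroup.eq_one_iff]
    have h3 : (QuotientGroup.mk (cj X Y (2 * L)) : F2 ⧸ N) = cj (xb N) (yb N) (2 * L) :=
      map_cj (QuotientGroup.mk' N) X Y _
    rw [QuotientGroup.mk_mul, QuotientGroup.mk_inv, h3, ← hc2]
    exact mul_inv_cancel _
  · have hmem : (⟨yb N, yb_mem N (2 * L)⟩ : BB N (2 * L)) ∈ AA' N (2 * L) := by
      rw [h]; trivial
    have h1 : yb N ∈ E' (xb N) (yb N) (2 * L) := hmem
    have h2 : E' (xb N) (yb N) (2 * L) = (E' X Y (2 * L)).map (QuotientGroup.mk' N) := by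
      rw [map_E']; rfl
    rw [h2] at h1
    obtain ⟨c, hc, hc2⟩ := h1
    have h3 : Y * c⁻¹ ∈ N := by
      rw [← QuotientGroup.eq_one_iff, QuotientGroup.mk_mul, QuotientGroup.mk_inv]
      have : (QuotientGroup.mk c : F2 ⧸ N) = QuotientGroup.mk Y := hc2
      rw [this]; exact mul_inv_cancel _
    -- apply x -> x^{-1} and conjugate by x^m
    let θ : F2 →* F2 := FreeGroup.lift fun i => cond i Y X⁻¹
    have h4 := hfi θ _ h3
    have h5 := hNn.conj_mem _ h4 (X ^ (2 * L))
    have hθY : θ Y = Y := by simp [θ]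
    have hθX : θ X = X⁻¹ := by simp [θ]
    refine ⟨2 * L, X ^ (2 * L) * θ c * (X ^ (2 * L))⁻¹, ?_, ?_⟩
    · -- membership
      have : ∀ c ∈ E' X Y (2 * L), X ^ (2 * L) * θ c * (X ^ (2 * L))⁻¹ ∈ E X Y (2 * L) := by
        intro c hc
        unfold E' at hc
        induction hc using Subgroup.closure_induction with
        | mem g hg =>
          obtain ⟨j, hj, rfl⟩ := hg
          rw [map_cj, hθX, hθY]
          refine Subgroup.subset_closure ⟨2 * L - (j + 1), by omega, ?_⟩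
          unfold cj
          have : X ^ (2 * L) = X ^ (2 * L - (j + 1)) * X ^ (j + 1) := by
            rw [← pow_add]; congr 1; omega
          rw [this]
          simp only [inv_pow, inv_inv]
          group
        | one => simp
        | mul a b _ _ ha hb =>
          have : X ^ (2 * L) * θ (a * b) * (X ^ (2 * L))⁻¹ =
            (X ^ (2 * L) * θ a * (X ^ (2 * L))⁻¹) * (X ^ (2 * L) * θ b * (X ^ (2 * L))⁻¹) := by
            rw [map_mul]; group
          rw [this]; exact mul_mem ha hb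
        | inv a _ ha =>
          have : X ^ (2 * L) * θ a⁻¹ * (X ^ (2 * L))⁻¹ =
            (X ^ (2 * L) * θ a * (X ^ (2 * L))⁻¹)⁻¹ := by
            rw [map_inv]; group
          rw [this]; exact inv_mem ha
      exact this c hc
    · have : cj X Y (2 * L) * (X ^ (2 * L) * θ c * (X ^ (2 * L))⁻¹)⁻¹ =
        X ^ (2 * L) * θ (Y * c⁻¹) * (X ^ (2 * L))⁻¹ := by
        rw [map_mul, map_inv, hθY]; unfold cj; group
      rw [this]; exact h5

end Pool.Agent.H12RelFree
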