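import Mathlib
import Pool.Agent.H12_RelFree.MilnorLaw

set_option autoImplicit false

/-!
# Milnor laws force powers to act unipotently on abelian normal sections
-/

namespace Pool.Agent.H12RelFree

open Polynomial
open scoped IsMulCommutative

/-- A group satisfies the Milnor law with parameters `m`, `c`. -/
def MLaw (m : ℕ) (c : F2) (H : Type) [Group H] : Prop :=
  ∀ ψ : F2 →* H, ψ (cj X Y m * c⁻¹) = 1

theorem MLaw.of_injective {m : ℕ} {c : F2} {G H : Type} [Group G] [Group H] (f : G →* H)
    (hf : Function.Injective f) (h : MLaw m c H) : MLaw m c G := by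
  intro ψ
  apply hf
  rw [map_one]
  exact h (f.comp ψ)

theorem MLaw.of_surjective {m : ℕ} {c : F2} {G H : Type} [Group G] [Group H] (f : G →* H)
    (hf : Function.Surjective f) (h : MLaw m c G) : MLaw m c H := by
  intro ψ
  choose g hg using hf
  let ψ' : F2 →* G := FreeGroup.lift fun i => g (ψ (FreeGroup.of i))
  have : ψ = f.comp ψ' := by
    ext i
    simp [ψ', hg]
  rw [this, MonoidHom.comp_apply, h, map_one]

/-! ### Commutative algebra -/

/-- If all positive powers of `x` are roots of a monic polynomial then `x (x^q - 1)` is nilpotent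
with `q = (natDegree f)!`. -/
theorem isNilpotent_of_roots {R : Type} [CommRing R] (x : R) (f : ℤ[X]) (hf : f.Monic)
    (h : ∀ j : ℕ, aeval (x ^ (j + 1)) f = 0) :
    IsNilpotent (x * (x ^ (f.natDegree).factorial - 1)) := by
  rw [nilpotent_iff_mem_prime]
  intro J hJ
  have := hJ
  let π := Ideal.Quotient.mk J
  set y := π x with hy
  have hroot : ∀ j : ℕ, y ^ (j + 1) ∈ (f.map (algebraMap ℤ (R ⧸ J))).roots := by
    intro j
    rw [mem_roots (hf.map _).ne_zero, IsRoot.def, eval_map_algebraMap]
    have h1 : aeval (π (x ^ (j + 1))) f = π (aeval (x ^ (j + 1)) f) := by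
      exact aeval_algHom_apply (Ideal.Quotient.mkₐ ℤ J) _ _
    rw [hy, ← map_pow, h1, h, map_zero]
  classical
  have hcard : (f.map (algebraMap ℤ (R ⧸ J))).roots.toFinset.card ≤ f.natDegree := by
    refine le_trans (Multiset.toFinset_card_le _) ?_
    refine le_trans (card_roots' _) ?_
    exact natDegree_map_le
  -- pigeonhole
  have hpig : ∃ a ∈ Finset.range (f.natDegree + 1), ∃ b ∈ Finset.range (f.natDegree + 1),
      a ≠ b ∧ y ^ (a + 1) = y ^ (b + 1) := by
    refine Finset.exists_ne_map_eq_of_card_lt_of_maps_to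
      (t := (f.map (algebraMap ℤ (R ⧸ J))).roots.toFinset) ?_ ?_
    · rw [Finset.card_range]; omega
    · intro a _
      simpa using hroot a
  obtain ⟨a, ha, b, hb, hab, he⟩ := hpig
  have key : ∀ a b : ℕ, a < b → b < f.natDegree + 1 → y ^ (a + 1) = y ^ (b + 1) →
      y * (y ^ (f.natDegree).factorial - 1) = 0 := by
    intro a b hab hb he
    by_cases hy0 : y = 0
    · rw [hy0, zero_mul]
    · have h2 : y ^ (b - a) = 1 := by
        have h3 : y ^ (a + 1) * y ^ (b - a) = y ^ (a + 1) * 1 := by
          rw [← pow_add, mul_one, he]; congr 1; omega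
        exact mul_left_cancel₀ (pow_ne_zero _ hy0) h3
      have h4 : (b - a) ∣ (f.natDegree).factorial := Nat.dvd_factorial (by omega) (by omega)
      obtain ⟨k, hk⟩ := h4
      rw [hk, pow_mul, h2, one_pow, sub_self, mul_zero]
  have hfin : y * (y ^ (f.natDegree).factorial - 1) = 0 := by
    rcases lt_or_gt_of_ne hab with hlt | hlt
    · exact key a b hlt (Finset.mem_range.1 hb) he
    · exact key b a hlt (Finset.mem_range.1 ha) he.symm
  rw [← Ideal.Quotient.eq_zero_iff_mem]
  simpa [hy] using hfin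

/-- Non-commutative version for one element. -/
theorem exists_pow_eq_zero {R : Type} [Ring R] (x x' : R) (hx : x' * x = 1) (f : ℤ[X])
    (hf : f.Monic) (h : ∀ j : ℕ, aeval (x ^ (j + 1)) f = 0) :
    ∃ d : ℕ, (x ^ (f.natDegree).factorial - 1) ^ d = 0 := by
  let I : Ideal ℤ[X] := RingHom.ker (aeval x : ℤ[X] →ₐ[ℤ] R)
  have h1 : IsNilpotent ((Ideal.Quotient.mk I Polynomial.X) *
      ((Ideal.Quotient.mk I Polynomial.X) ^ (f.natDegree).factorial - 1)) := by
    apply isNilpotent_of_roots _ f hf
    intro j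
    have h2 : aeval ((Ideal.Quotient.mk I Polynomial.X) ^ (j + 1)) f =
        (Ideal.Quotient.mk I) (aeval (Polynomial.X ^ (j + 1)) f) := by
      rw [← map_pow]
      exact aeval_algHom_apply (Ideal.Quotient.mkₐ ℤ I) _ _
    refine h2.trans ?_
    rw [Ideal.Quotient.eq_zero_iff_mem]
    show aeval (Polynomial.X ^ (j + 1)) f ∈ RingHom.ker (aeval x : ℤ[X] →ₐ[ℤ] R)
    rw [RingHom.mem_ker]
    have h3 := aeval_algHom_apply (aeval x : ℤ[X] →ₐ[ℤ] R) (Polynomial.X ^ (j + 1)) f
    have h4 : (aeval x : ℤ[X] →ₐ[ℤ] R) (Polynomial.X ^ (j + 1)) = x ^ (j + 1) := by simp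
    rw [h4, h j] at h3
    exact h3.symm
  obtain ⟨d, hd⟩ := h1
  refine ⟨d, ?_⟩
  have h5 : (Polynomial.X * (Polynomial.X ^ (f.natDegree).factorial - 1) : ℤ[X]) ^ d ∈ I := by
    rw [← Ideal.Quotient.eq_zero_iff_mem]
    simpa using hd
  have h6 : (x * (x ^ (f.natDegree).factorial - 1)) ^ d = 0 := by
    have := (RingHom.mem_ker).1 h5
    simpa using this
  have hcomm : Commute x (x ^ (f.natDegree).factorial - 1) :=
    (Commute.pow_right (Commute.refl x) _).sub_right (Commute.one_right x)
  rw [hcomm.mul_pow] at h6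
  have h7 : x' ^ d * x ^ d = 1 := by
    clear h6 hd h5
    induction d with
    | zero => simp
    | succ d ih => rw [pow_succ, pow_succ', mul_assoc, ← mul_assoc x', hx, one_mul, ih]
  calc (x ^ (f.natDegree).factorial - 1) ^ d
      = x' ^ d * (x ^ d * (x ^ (f.natDegree).factorial - 1) ^ d) := by
        rw [← mul_assoc, h7, one_mul]
    _ = 0 := by rw [h6, mul_zero]

/-! ### Action on an abelian normal subgroup -/

section Act

variable {H : Type} [Group H] (Z : Subgroup H) [Z.Normal] [IsMulCommutative Z]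

/-- conjugation action of `H` on the abelian normal subgroup `Z` -/
noncomputable def act : H →* AddMonoid.End (Additive Z) where
  toFun h := MonoidHom.toAdditive ((MulAut.conjNormal h : Z ≃* Z).toMonoidHom)
  map_one' := by
    ext z
    show ((1 : H) * ((Additive.toMul z : Z) : H) * (1 : H)⁻¹) = ((Additive.toMul z : Z) : H)
    simp
  map_mul' a b := by
    ext z
    show ((a * b) * ((Additive.toMul z : Z) : H) * (a * b)⁻¹) =
      a * (b * ((Additive.toMul z : Z) : H) * b⁻¹) * a⁻¹
    group

theorem act_apply (h : H) (z : Additive Z) :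
    ((Additive.toMul (act Z h z) : Z) : H) = h * ((Additive.toMul z : Z) : H) * h⁻¹ := rfl

/-- evaluation of words on `x, z` with `z ∈ Z`: words in the conjugates give polynomials. -/
theorem exists_poly {m : ℕ} {c : F2} (hc : c ∈ E X Y m) :
    ∃ p : ℤ[X], p.degree < m ∧ ∀ (H : Type) [Group H] (Z : Subgroup H) [Z.Normal]
      [IsMulCommutative Z] (x : H) (z : Additive Z),
      FreeGroup.lift (fun i => cond i ((Additive.toMul z : Z) : H) x) c =
        ((Additive.toMul ((aeval (act Z x) p : AddMonoid.End (Additive Z)) z) : Z) : H) := by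
  unfold E at hc
  induction hc using Subgroup.closure_induction with
  | mem g hg =>
    obtain ⟨j, hj, rfl⟩ := hg
    refine ⟨Polynomial.X ^ j, ?_, ?_⟩
    · rw [degree_X_pow]; exact_mod_cast hj
    · intro H _ Z _ _ x z
      rw [map_cj]
      have h1 : (aeval (act Z x) (Polynomial.X ^ j : ℤ[X]) : AddMonoid.End (Additive Z)) =
          act Z (x ^ j) := by simp
      rw [h1, act_apply]
      simp [cj]
  | one =>
    refine ⟨0, ?_, ?_⟩
    · rw [degree_zero]; exact WithBot.bot_lt_coe m
    · intro H _ Z _ _ x z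
      simp
  | mul a b _ _ ha hb =>
    obtain ⟨p, hp, hp2⟩ := ha
    obtain ⟨r, hr, hr2⟩ := hb
    refine ⟨p + r, lt_of_le_of_lt (degree_add_le _ _) (max_lt hp hr), ?_⟩
    intro H _ Z _ _ x z
    rw [map_mul, hp2, hr2, map_add]
    rfl
  | inv a _ ha =>
    obtain ⟨p, hp, hp2⟩ := ha
    refine ⟨-p, by rw [degree_neg]; exact hp, ?_⟩
    intro H _ Z _ _ x z
    rw [map_inv, hp2, map_neg]
    rfl

end Act

/-- In a group with a Milnor law there are `q ≥ 1` such that `x^q` acts unipotently on every
abelian normal subgroup, for every `x`. -/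
theorem exists_q {m : ℕ} {c : F2} (hc : c ∈ E X Y m) :
    ∃ q : ℕ, 0 < q ∧ ∀ (H : Type) [Group H], MLaw m c H → ∀ (Z : Subgroup H) [Z.Normal]
      [IsMulCommutative Z] (x : H), ∃ d : ℕ, (act Z (x ^ q) - 1) ^ d = 0 := by
  obtain ⟨p, hp, hp2⟩ := exists_poly hc
  let f : ℤ[X] := Polynomial.X ^ m - p
  have hf : f.Monic := (monic_X_pow m).sub_of_left (by rw [degree_X_pow]; exact hp)
  refine ⟨(f.natDegree).factorial, Nat.factorial_pos _, ?_⟩
  intro H _ hH Z _ _ x
  have key : ∀ y : H, aeval (act Z y) f = 0 := by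
    intro y
    ext z
    have h1 := hH (FreeGroup.lift (fun i => cond i ((Additive.toMul z : Z) : H) y))
    rw [map_mul, map_inv, hp2 H Z y z, map_cj] at h1
    simp only [FreeGroup.lift_apply_of, cond_false, cond_true] at h1
    have h2 : cj y ((Additive.toMul z : Z) : H) m =
        ((Additive.toMul ((act Z y ^ m) z) : Z) : H) := by
      rw [← map_pow, act_apply]; rfl
    rw [h2] at h1
    have h3 : ((Additive.toMul ((act Z y ^ m) z) : Z) : H) =
      ((Additive.toMul ((aeval (act Z y) p : AddMonoid.End (Additive Z)) z) : Z) : H) :=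
        mul_inv_eq_one.1 h1
    have h4 : (act Z y ^ m) z = (aeval (act Z y) p : AddMonoid.End (Additive Z)) z := by
      apply Additive.toMul.injective
      exact Subtype.ext h3
    simp only [f, map_sub, map_pow, aeval_X]
    have h5 : (act Z y ^ m - (aeval (act Z y) p : AddMonoid.End (Additive Z))) z = 0 := by
      show (act Z y ^ m) z - (aeval (act Z y) p : AddMonoid.End (Additive Z)) z = 0
      rw [h4, sub_self]
    rw [h5]
    rfl
  obtain ⟨d, hd⟩ := exists_pow_eq_zero (act Z x) (act Z x⁻¹)
    (by rw [← map_mul, inv_mul_cancel, map_one]) f hf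
    (fun j => by rw [← map_pow]; exact key _)
  exact ⟨d, by rw [map_pow]; exact hd⟩

end Pool.Agent.H12RelFree
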