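import Mathlib
import Pool.Agent.H12_RelFree.Unip

set_option autoImplicit false

/-!
# `K ⟨x^q⟩` is nilpotent for every nilpotent normal subgroup `K`
-/

namespace Pool.Agent.H12RelFree

open scoped IsMulCommutative commutatorElement

/-- iterated commutator `[A, M, ..., M]` -/
def itc {H : Type} [Group H] (A M : Subgroup H) : ℕ → Subgroup H
  | 0 => A
  | (k + 1) => ⁅itc A M k, M⁆

theorem itc_mono {H : Type} [Group H] {A B M : Subgroup H} (h : A ≤ B) (k : ℕ) :
    itc A M k ≤ itc B M k := by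
  induction k with
  | zero => exact h
  | succ k ih => exact Subgroup.commutator_mono ih le_rfl

theorem itc_map {H G : Type} [Group H] [Group G] (f : H →* G) (A M : Subgroup H) (k : ℕ) :
    (itc A M k).map f = itc (A.map f) (M.map f) k := by
  induction k with
  | zero => rfl
  | succ k ih => simp only [itc]; rw [Subgroup.map_commutator, ih]

theorem itc_add {H : Type} [Group H] (M : Subgroup H) (n k : ℕ) :
    M.lowerCentralSeries (n + k) = itc (M.lowerCentralSeries n) M k := by
  induction k with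
  | zero => rfl
  | succ k ih => 
    show ⁅M.lowerCentralSeries (n + k), M⁆ = ⁅itc (M.lowerCentralSeries n) M k, M⁆
    rw [ih]

section Layer

variable {H : Type} [Group H] (Z : Subgroup H) [Z.Normal] [IsMulCommutative Z]

/-- the image of `(σ - 1)^j` as a subgroup of `H` -/
noncomputable def CS (σ : AddMonoid.End (Additive Z)) (j : ℕ) : Subgroup H where
  carrier := {g | ∃ a : Additive Z, g = ((Additive.toMul (((σ - 1) ^ j) a) : Z) : H)}
  one_mem' := ⟨0, by rw [map_zero]; rfl⟩
  mul_mem' := by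
    rintro _ _ ⟨a, rfl⟩ ⟨b, rfl⟩
    exact ⟨a + b, by rw [map_add]; rfl⟩
  inv_mem' := by
    rintro _ ⟨a, rfl⟩
    exact ⟨-a, by rw [map_neg]; rfl⟩

theorem act_mem (K : Subgroup H) (hK : ∀ k ∈ K, ∀ z ∈ Z, k * z = z * k) (s : H)
    (h : H) (hh : h ∈ K ⊔ Subgroup.zpowers s) :
    ∃ ρ : AddMonoid.End (Additive Z), Commute ρ (act Z s) ∧ act Z h = 1 + (act Z s - 1) * ρ := by
  have hgen : K ⊔ Subgroup.zpowers s = Subgroup.closure ((K : Set H) ∪ {s}) := by
    rw [Subgroup.closure_union, Subgroup.closure_eq, Subgroup.zpowers_eq_closure]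
  rw [hgen] at hh
  induction hh using Subgroup.closure_induction with
  | mem g hg =>
    rcases hg with hg | hg
    · refine ⟨0, Commute.zero_left _, ?_⟩
      rw [mul_zero, add_zero]
      ext z
      show g * ((Additive.toMul z : Z) : H) * g⁻¹ = ((Additive.toMul z : Z) : H)
      rw [hK g hg _ (Additive.toMul z).2, mul_inv_cancel_right]
    · rw [Set.mem_singleton_iff] at hg
      subst hg
      exact ⟨1, Commute.one_left _, by rw [mul_one]; abel⟩
  | one => exact ⟨0, Commute.zero_left _, by rw [map_one, mul_zero, add_zero]⟩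
  | mul a b _ _ ha hb =>
    obtain ⟨ρ, h1, h2⟩ := ha
    obtain ⟨ρ', h3, h4⟩ := hb
    refine ⟨ρ + ρ' + (act Z s - 1) * (ρ * ρ'), ?_, ?_⟩
    · refine (h1.add_left h3).add_left ?_
      exact (((Commute.refl _).sub_left (Commute.one_left _)).mul_left (h1.mul_left h3))
    · have h5 : ρ * (act Z s - 1) = (act Z s - 1) * ρ := by
        rw [mul_sub, sub_mul, h1.eq, mul_one, one_mul]
      rw [map_mul, h2, h4]
      have h6 : (1 + (act Z s - 1) * ρ) * (1 + (act Z s - 1) * ρ') =
        1 + (act Z s - 1) * ρ + (act Z s - 1) * ρ' + (act Z s - 1) * (ρ * (act Z s - 1)) * ρ' := by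
        noncomm_ring
      rw [h6, h5]
      noncomm_ring
  | inv a _ ha =>
    obtain ⟨ρ, h1, h2⟩ := ha
    have hinv1 : act Z a⁻¹ * act Z a = 1 := by rw [← map_mul, inv_mul_cancel, map_one]
    have hinv2 : act Z a * act Z a⁻¹ = 1 := by rw [← map_mul, mul_inv_cancel, map_one]
    have hc : Commute (act Z a) (act Z s) := by
      rw [h2]
      exact (Commute.one_left _).add_left
        ((((Commute.refl _).sub_left (Commute.one_left _))).mul_left h1)
    have hc' : Commute (act Z a⁻¹) (act Z s) := by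
      show act Z a⁻¹ * act Z s = act Z s * act Z a⁻¹
      calc act Z a⁻¹ * act Z s = act Z a⁻¹ * act Z s * (act Z a * act Z a⁻¹) := by
            rw [hinv2, mul_one]
        _ = act Z a⁻¹ * (act Z a * act Z s) * act Z a⁻¹ := by rw [hc.eq]; noncomm_ring
        _ = (act Z a⁻¹ * act Z a) * act Z s * act Z a⁻¹ := by noncomm_ring
        _ = act Z s * act Z a⁻¹ := by rw [hinv1, one_mul]
    refine ⟨0 - (ρ * act Z a⁻¹), (Commute.zero_left _).sub_left ((h1.mul_left hc')), ?_⟩
    have h7 : (1 + (act Z s - 1) * ρ) * act Z a⁻¹ = 1 := by rw [← h2]; exact hinv2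
    rw [add_mul, one_mul] at h7
    rw [mul_sub, mul_zero, ← mul_assoc, ← add_sub_assoc, add_zero]
    exact eq_sub_of_add_eq h7

theorem layer (K : Subgroup H) (hK : ∀ k ∈ K, ∀ z ∈ Z, k * z = z * k) (s : H) (d : ℕ)
    (hd : (act Z s - 1) ^ d = 0) : itc Z (K ⊔ Subgroup.zpowers s) d = ⊥ := by
  have key : ∀ j, itc Z (K ⊔ Subgroup.zpowers s) j ≤ CS Z (act Z s) j := by
    intro j
    induction j with
    | zero =>
      intro z hz
      exact ⟨Additive.ofMul ⟨z, hz⟩, by simp⟩
    | succ j ih =>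
      refine le_trans (Subgroup.commutator_mono ih le_rfl) ?_
      rw [Subgroup.commutator_le]
      rintro _ ⟨a, rfl⟩ h hh
      obtain ⟨ρ, h1, h2⟩ := act_mem Z K hK s h hh
      refine ⟨-(ρ a), ?_⟩
      have h3 : (act Z h) (((act Z s - 1) ^ j) a) = ((act Z s - 1) ^ j) a +
          ((act Z s - 1) ^ (j + 1)) (ρ a) := by
        have h5 : Commute ρ ((act Z s - 1) ^ j) :=
          (h1.sub_right (Commute.one_right _)).pow_right j
        have h4 : (act Z h) * ((act Z s - 1) ^ j) =
          ((act Z s - 1) ^ j) + ((act Z s - 1) ^ (j + 1)) * ρ := by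
          rw [h2, add_mul, one_mul, mul_assoc, h5.eq, ← mul_assoc, ← pow_succ']
        have := DFunLike.congr_fun h4 a
        exact this
      have h4 := act_apply Z h (((act Z s - 1) ^ j) a)
      rw [h3] at h4
      rw [map_neg, commutatorElement_def]
      set u : Z := Additive.toMul (((act Z s - 1) ^ j) a) with hu
      set v : Z := Additive.toMul (((act Z s - 1) ^ (j + 1)) (ρ a)) with hv
      have h6 : ((u * v : Z) : H) = h * (u : H) * h⁻¹ := h4
      have h7 : (h * (u : H) * h⁻¹)⁻¹ = h * (u : H)⁻¹ * h⁻¹ := by group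
      have h8 : (u : H) * h * (u : H)⁻¹ * h⁻¹ = (u : H) * (h * (u : H) * h⁻¹)⁻¹ := by
        rw [h7]; group
      rw [h8, ← h6]
      have h9 : (u : H) * (((u * v : Z) : H))⁻¹ = ((u * (u * v)⁻¹ : Z) : H) := rfl
      rw [h9]
      have h10 : u * (u * v)⁻¹ = v⁻¹ := by
        rw [mul_comm u v, mul_inv_rev, mul_inv_cancel_left]
      rw [h10]
      rfl
  rw [eq_bot_iff]
  refine le_trans (key d) ?_
  rintro _ ⟨a, rfl⟩
  rw [hd]
  exact Subgroup.mem_bot.2 rfl

end Layer

theorem exists_q_nilp {m : ℕ} {c : F2} (hc : c ∈ E X Y m) :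
    ∃ q : ℕ, 0 < q ∧ ∀ (H : Type) [Group H], MLaw m c H → ∀ (K : Subgroup H) [K.Normal],
      Group.IsNilpotent K → ∀ x : H, Group.IsNilpotent ↥(K ⊔ Subgroup.zpowers (x ^ q)) := by
  obtain ⟨q, hq, hq2⟩ := exists_q hc
  refine ⟨q, hq, ?_⟩
  intro H _ hH K _ hK x
  set M := K ⊔ Subgroup.zpowers (x ^ q) with hM
  have hnorm : ∀ i, (K.lowerCentralSeries i).Normal := by
    intro i
    induction i with
    | zero => exact (inferInstance : K.Normal)
    | succ i ih => exact Subgroup.commutator_normal _ _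
  -- step
  have step : ∀ i, ∃ d, itc (K.lowerCentralSeries i) M d ≤ K.lowerCentralSeries (i + 1) := by
    intro i
    have hn1 := hnorm i
    have hn2 := hnorm (i + 1)
    let π := QuotientGroup.mk' (K.lowerCentralSeries (i + 1))
    have hπ : Function.Surjective π := QuotientGroup.mk'_surjective _
    let Z := (K.lowerCentralSeries i).map π
    have hZn : Z.Normal := hn1.map π hπ
    have hcent : ∀ k ∈ K.map π, ∀ z ∈ Z, k * z = z * k := by
      rintro _ ⟨k, hk, rfl⟩ _ ⟨z, hz, rfl⟩
      have h1 : (⁅z, k⁆ : H) ∈ K.lowerCentralSeries (i + 1) :=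
        Subgroup.commutator_mem_commutator hz hk
      have h2 : π (⁅z, k⁆ : H) = 1 := (QuotientGroup.eq_one_iff _).2 h1
      rw [map_commutatorElement, commutatorElement_eq_one_iff_mul_comm] at h2
      exact h2.symm
    have hZc : IsMulCommutative Z := by
      refine ⟨⟨?_⟩⟩
      rintro ⟨a, ha⟩ ⟨b, hb⟩
      apply Subtype.ext
      have hle : K.lowerCentralSeries i ≤ K := K.lowerCentralSeries_antitone (Nat.zero_le i)
      exact hcent a (Subgroup.map_mono hle ha) b hb
    obtain ⟨d, hd⟩ := hq2 _ (hH.of_surjective π hπ) Z (π x)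
    refine ⟨d, ?_⟩
    have h3 := layer Z (K.map π) hcent (π x ^ q) d hd
    have h4 : M.map π = K.map π ⊔ Subgroup.zpowers (π x ^ q) := by
      rw [hM, Subgroup.map_sup, MonoidHom.map_zpowers, map_pow]
    rw [← h4, ← itc_map] at h3
    rw [Subgroup.map_eq_bot_iff, QuotientGroup.ker_mk'] at h3
    exact h3
  have hMK : M.lowerCentralSeries 1 ≤ K := by
    show ⁅M, M⁆ ≤ K
    let π := QuotientGroup.mk' K
    have h1 : (⁅M, M⁆).map π = ⊥ := by
      rw [Subgroup.map_commutator]
      have h4 : M.map π = Subgroup.zpowers (π x ^ q) := by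
        rw [hM, Subgroup.map_sup, MonoidHom.map_zpowers, map_pow]
        have : K.map π = ⊥ := by
          rw [Subgroup.map_eq_bot_iff, QuotientGroup.ker_mk']
        rw [this, bot_sup_eq]
      rw [h4, Subgroup.commutator_eq_bot_iff_le_centralizer]
      intro a ha
      rw [Subgroup.mem_centralizer_iff]
      intro b hb
      obtain ⟨i, rfl⟩ := ha
      obtain ⟨j, rfl⟩ := hb
      exact (Commute.zpow_zpow (Commute.refl _) _ _)
    rw [Subgroup.map_eq_bot_iff, QuotientGroup.ker_mk'] at h1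
    exact h1
  have chain : ∀ i, ∃ n, M.lowerCentralSeries n ≤ K.lowerCentralSeries i := by
    intro i
    induction i with
    | zero => exact ⟨1, hMK⟩
    | succ i ih =>
      obtain ⟨n, hn⟩ := ih
      obtain ⟨d, hd⟩ := step i
      refine ⟨n + d, ?_⟩
      rw [itc_add]
      exact le_trans (itc_mono hn d) hd
  rw [Subgroup.isNilpotent_iff_lowerCentralSeries] at hK ⊢
  obtain ⟨i, hi⟩ := hK
  obtain ⟨n, hn⟩ := chain i
  exact ⟨n, by rw [eq_bot_iff, ← hi]; exact hn⟩

end Pool.Agent.H12RelFree
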