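import Mathlib
import Pool.Agent.H12_RelFree.Nilp

set_option autoImplicit false

/-!
# Milnor's lemma and extension properties in varieties with a Milnor law
-/

namespace Pool.Agent.H12RelFree

open Function
open scoped IsMulCommutative

/-- virtually nilpotent -/
def VN (H : Type) [Group H] : Prop := ∃ P : Subgroup H, P.FiniteIndex ∧ Group.IsNilpotent P

theorem VN.of_nilpotent {H : Type} [Group H] (h : Group.IsNilpotent H) : VN H :=
  ⟨⊤, inferInstance, Group.isNilpotent_top.2 h⟩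

theorem VN.of_finite (H : Type) [Group H] [Finite H] : VN H :=
  ⟨⊥, inferInstance, by infer_instance⟩

theorem VN.of_finiteIndex {H : Type} [Group H] (K : Subgroup H) [hK : K.FiniteIndex] (h : VN K) :
    VN H := by
  obtain ⟨P, hP, hn⟩ := h
  refine ⟨P.map K.subtype, ?_, ?_⟩
  · rw [Subgroup.finiteIndex_iff, Subgroup.index_map_subtype]
    exact mul_ne_zero (Subgroup.finiteIndex_iff.1 hP) (Subgroup.finiteIndex_iff.1 hK)
  · exact (Group.isNilpotent_congr (P.equivMapOfInjective K.subtype K.subtype_injective)).1 hn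

theorem VN.of_mulEquiv {H G : Type} [Group H] [Group G] (e : H ≃* G) (h : VN H) : VN G := by
  obtain ⟨P, hP, hn⟩ := h
  refine ⟨P.map (e : H →* G), ?_, ?_⟩
  · rw [Subgroup.finiteIndex_iff, Subgroup.index_map_equiv]
    exact Subgroup.finiteIndex_iff.1 hP
  · exact (Group.isNilpotent_congr (P.equivMapOfInjective (e : H →* G) e.injective)).1 hn

theorem VN.exists_normal {H : Type} [Group H] (h : VN H) :
    ∃ P : Subgroup H, P.Normal ∧ P.FiniteIndex ∧ Group.IsNilpotent P := by
  obtain ⟨P, hP, hn⟩ := h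
  refine ⟨P.normalCore, inferInstance, inferInstance, ?_⟩
  rw [Subgroup.isNilpotent_iff_lowerCentralSeries] at hn ⊢
  obtain ⟨n, hn⟩ := hn
  refine ⟨n, ?_⟩
  rw [eq_bot_iff, ← hn]
  exact Subgroup.lowerCentralSeries_mono n P.normalCore_le

theorem nilpotent_of_le {H : Type} [Group H] {A B : Subgroup H} (hAB : A ≤ B)
    (hn : Group.IsNilpotent B) : Group.IsNilpotent A := by
  rw [Subgroup.isNilpotent_iff_lowerCentralSeries] at hn ⊢
  obtain ⟨n, hn⟩ := hn
  refine ⟨n, ?_⟩
  rw [eq_bot_iff, ← hn]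
  exact Subgroup.lowerCentralSeries_mono n hAB

/-- a finitely generated nilpotent group of finite exponent is finite -/
theorem finite_of_nilpotent_exponent (G : Type) [Group G] [Group.IsNilpotent G] :
    Group.FG G → (∃ e : ℕ, 0 < e ∧ ∀ g : G, g ^ e = 1) → Finite G := by
  refine Group.nilpotent_center_quotient_ind
    (P := fun G _ _ => Group.FG G → (∃ e : ℕ, 0 < e ∧ ∀ g : G, g ^ e = 1) → Finite G) G ?_ ?_
  · intro G _ _ _ _
    infer_instance
  · intro G _ _ ih hfg he
    obtain ⟨e, he0, he⟩ := he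
    have h1 : Finite (G ⧸ Subgroup.center G) := by
      apply ih
      · infer_instance
      · refine ⟨e, he0, ?_⟩
        intro g
        obtain ⟨g, rfl⟩ := QuotientGroup.mk_surjective g
        rw [← QuotientGroup.mk_pow, he]; rfl
    have h2 : (Subgroup.center G).FiniteIndex := Subgroup.finiteIndex_of_finite_quotient
    have h3 : Group.FG (Subgroup.center G) :=
      @Subgroup.fg_of_index_ne_zero G _ (Subgroup.center G) hfg h2
    have h4 : Finite (Subgroup.center G) := by
      refine @CommGroup.finite_of_fg_isMulTorsion (Subgroup.center G) _ h3 ?_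
      intro g
      rw [isOfFinOrder_iff_pow_eq_one]
      exact ⟨e, he0, Subtype.ext (he g)⟩
    exact Finite.of_subgroup_quotient (Subgroup.center G)

section Fix

variable {m : ℕ} {c : F2} (hc : c ∈ E X Y m)
include hc

/-- the Milnor law as a statement about subgroups -/
theorem cj_mem_of_mlaw {H : Type} [Group H] (hH : MLaw m c H) (x y : H) :
    cj x y m ∈ E x y m := by
  let ψ : F2 →* H := FreeGroup.lift fun i => cond i y x
  have h1 := hH ψ
  rw [map_mul, map_inv, map_cj] at h1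
  have hx : ψ X = x := by simp [ψ]
  have hy : ψ Y = y := by simp [ψ]
  rw [hx, hy] at h1
  have h2 : ψ c ∈ (E X Y m).map ψ := ⟨c, hc, rfl⟩
  rw [map_E, hx, hy] at h2
  rw [mul_inv_eq_one.1 h1]
  exact h2

theorem conj_E_le {H : Type} [Group H] (hH : MLaw m c H) (x y : H) {g : H} (hg : g ∈ E x y m) :
    x * g * x⁻¹ ∈ E x y m := by
  unfold E at hg
  induction hg using Subgroup.closure_induction with
  | mem g hg =>
    obtain ⟨j, hj, rfl⟩ := hg
    rw [conj_cj]
    rcases Nat.lt_or_ge (j + 1) m with h | h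
    · exact cj_mem_E x y h
    · have : j + 1 = m := by omega
      rw [this]
      exact cj_mem_of_mlaw hc hH x y
  | one => simp
  | mul a b _ _ ha hb =>
    have : x * (a * b) * x⁻¹ = (x * a * x⁻¹) * (x * b * x⁻¹) := by group
    rw [this]; exact mul_mem ha hb
  | inv a _ ha =>
    have : x * a⁻¹ * x⁻¹ = (x * a * x⁻¹)⁻¹ := by group
    rw [this]; exact inv_mem ha

omit hc in
/-- reversal: `E x y m` is a conjugate of `E x⁻¹ y m`. -/
theorem conj_E_rev {H : Type} [Group H] (x y : H) {g : H} (hg : g ∈ E x⁻¹ y m) :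
    x ^ (m - 1) * g * (x ^ (m - 1))⁻¹ ∈ E x y m := by
  unfold E at hg
  induction hg using Subgroup.closure_induction with
  | mem g hg =>
    obtain ⟨j, hj, rfl⟩ := hg
    refine Subgroup.subset_closure ⟨m - 1 - j, by omega, ?_⟩
    unfold cj
    have : x ^ (m - 1) = x ^ (m - 1 - j) * x ^ j := by rw [← pow_add]; congr 1; omega
    rw [this, inv_pow]; group
  | one => simp
  | mul a b _ _ ha hb =>
    have : x ^ (m - 1) * (a * b) * (x ^ (m - 1))⁻¹ =
      (x ^ (m - 1) * a * (x ^ (m - 1))⁻¹) * (x ^ (m - 1) * b * (x ^ (m - 1))⁻¹) := by group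
    rw [this]; exact mul_mem ha hb
  | inv a _ ha =>
    have : x ^ (m - 1) * a⁻¹ * (x ^ (m - 1))⁻¹ = (x ^ (m - 1) * a * (x ^ (m - 1))⁻¹)⁻¹ := by group
    rw [this]; exact inv_mem ha

theorem conj_E_le' {H : Type} [Group H] (hH : MLaw m c H) (x y : H) {g : H} (hg : g ∈ E x y m) :
    x⁻¹ * g * x ∈ E x y m := by
  -- g ↦ element of E x⁻¹ y m
  have h1 := conj_E_rev x⁻¹ y (m := m) (g := g) (by rw [inv_inv]; exact hg)
  have h2 := conj_E_le hc hH x⁻¹ y h1
  have h3 := conj_E_rev x y h2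
  have : x ^ (m - 1) * (x⁻¹ * (x⁻¹ ^ (m - 1) * g * (x⁻¹ ^ (m - 1))⁻¹) * x⁻¹⁻¹) * (x ^ (m - 1))⁻¹
      = x⁻¹ * g * x := by
    rw [inv_pow, inv_inv, inv_inv]
    have hcomm : x ^ (m - 1) * x⁻¹ = x⁻¹ * x ^ (m - 1) :=
      ((Commute.refl x).pow_left _).inv_right.eq
    calc x ^ (m - 1) * (x⁻¹ * ((x ^ (m - 1))⁻¹ * g * x ^ (m - 1)) * x) * (x ^ (m - 1))⁻¹
        = (x ^ (m - 1) * x⁻¹) * ((x ^ (m - 1))⁻¹ * g * x ^ (m - 1)) * x * (x ^ (m - 1))⁻¹ := by
          group
      _ = (x⁻¹ * x ^ (m - 1)) * ((x ^ (m - 1))⁻¹ * g * x ^ (m - 1)) * x * (x ^ (m - 1))⁻¹ := by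
          rw [hcomm]
      _ = x⁻¹ * g * (x ^ (m - 1) * x * (x ^ (m - 1))⁻¹) := by group
      _ = x⁻¹ * g * x := by
          have : x ^ (m - 1) * x = x * x ^ (m - 1) := ((Commute.refl x).pow_left _).eq
          rw [this]; group
  rw [this] at h3
  exact h3

/-- key properties of the quotient `Q` -/
def GOOD (m : ℕ) (c : F2) (Q : Type) [Group Q] : Prop :=
  ∀ (H : Type) [Group H], MLaw m c H → Group.FG H → ∀ f : H →* Q, Surjective f →
    Group.FG f.ker ∧ (VN f.ker → VN H)

omit hc in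
theorem GOOD.of_finite (Q : Type) [Group Q] [Finite Q] : GOOD m c Q := by
  intro H _ _ hfg f hf
  have h1 : f.ker.FiniteIndex := inferInstance
  refine ⟨inferInstance, fun h => VN.of_finiteIndex f.ker h⟩

omit hc in
theorem GOOD.ext {Q R : Type} [Group Q] [Group R] (g : Q →* R) (hg : Surjective g)
    (h1 : GOOD m c g.ker) (h2 : GOOD m c R) : GOOD m c Q := by
  intro H _ hH hfg f hf
  obtain ⟨h3, h4⟩ := h2 H hH hfg (g.comp f) (hg.comp hf)
  -- restricted map
  let f' : (g.comp f).ker →* g.ker :=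
    { toFun := fun x => ⟨f x.1, x.2⟩
      map_one' := by apply Subtype.ext; simp
      map_mul' := fun a b => by apply Subtype.ext; simp }
  have hf' : Surjective f' := by
    rintro ⟨q, hq⟩
    obtain ⟨x, rfl⟩ := hf q
    exact ⟨⟨x, hq⟩, rfl⟩
  have hM : MLaw m c (g.comp f).ker := hH.of_injective (g.comp f).ker.subtype
    (Subgroup.subtype_injective _)
  obtain ⟨h5, h6⟩ := h1 _ hM h3 f' hf'
  -- iso of kernels
  let e : f'.ker ≃* f.ker :=
    { toFun := fun x => ⟨x.1.1, by
        have := x.2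
        rw [MonoidHom.mem_ker] at this ⊢
        exact congrArg Subtype.val this⟩
      invFun := fun x => ⟨⟨x.1, by
        rw [MonoidHom.mem_ker, MonoidHom.comp_apply, (MonoidHom.mem_ker).1 x.2, map_one]⟩, by
        rw [MonoidHom.mem_ker]
        exact Subtype.ext x.2⟩
      left_inv := fun x => rfl
      right_inv := fun x => rfl
      map_mul' := fun a b => rfl }
  refine ⟨?_, ?_⟩
  · exact Group.fg_of_surjective (f := e.toMonoidHom) e.surjective
  · intro h
    exact h4 (h6 (VN.of_mulEquiv e.symm h))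

theorem GOOD.of_infinite_cyclic (Q : Type) [Group Q] [Infinite Q] (g₀ : Q)
    (hg₀ : ∀ q : Q, q ∈ Subgroup.zpowers g₀) : GOOD m c Q := by
  classical
  intro H _ hH hfg f hf
  have hinj : ∀ k : ℤ, g₀ ^ k = 1 → k = 0 := by
    intro k hk
    by_contra hk0
    have h1 : IsOfFinOrder g₀ := isOfFinOrder_iff_zpow_eq_one.2 ⟨k, hk0, hk⟩
    have h2 : (Subgroup.zpowers g₀ : Set Q).Finite := finite_zpowers.2 h1
    have h3 : (Set.univ : Set Q).Finite := h2.subset (fun q _ => hg₀ q)
    exact Set.infinite_univ h3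
  obtain ⟨t, ht⟩ := hf g₀
  obtain ⟨S, hS⟩ := hfg.1
  -- exponents
  have hexp : ∀ h : H, ∃ k : ℤ, f h = g₀ ^ k := fun h => by
    obtain ⟨k, hk⟩ := hg₀ (f h)
    exact ⟨k, hk.symm⟩
  choose κ hκ using hexp
  let T : Finset H := S.image fun h => h * (t ^ (κ h))⁻¹
  let D : Subgroup H := Subgroup.closure {g | ∃ y ∈ T, ∃ j : ℕ, j < m ∧ g = cj t y j}
  have hED : ∀ y ∈ T, E t y m ≤ D := by
    intro y hy
    unfold E
    apply Subgroup.closure_mono
    rintro g ⟨j, hj, rfl⟩
    exact ⟨y, hy, j, hj, rfl⟩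
  have hD1 : ∀ g ∈ D, t * g * t⁻¹ ∈ D := by
    intro g hg
    induction hg using Subgroup.closure_induction with
    | mem g hg =>
      obtain ⟨y, hy, j, hj, rfl⟩ := hg
      exact hED y hy (conj_E_le hc hH t y (cj_mem_E t y hj))
    | one => simp
    | mul a b _ _ ha hb =>
      have : t * (a * b) * t⁻¹ = (t * a * t⁻¹) * (t * b * t⁻¹) := by group
      rw [this]; exact mul_mem ha hb
    | inv a _ ha =>
      have : t * a⁻¹ * t⁻¹ = (t * a * t⁻¹)⁻¹ := by group
      rw [this]; exact inv_mem ha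
  have hD2 : ∀ g ∈ D, t⁻¹ * g * t ∈ D := by
    intro g hg
    induction hg using Subgroup.closure_induction with
    | mem g hg =>
      obtain ⟨y, hy, j, hj, rfl⟩ := hg
      exact hED y hy (conj_E_le' hc hH t y (cj_mem_E t y hj))
    | one => simp
    | mul a b _ _ ha hb =>
      have : t⁻¹ * (a * b) * t = (t⁻¹ * a * t) * (t⁻¹ * b * t) := by group
      rw [this]; exact mul_mem ha hb
    | inv a _ ha =>
      have : t⁻¹ * a⁻¹ * t = (t⁻¹ * a * t)⁻¹ := by group
      rw [this]; exact inv_mem ha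
  have htD : t ∈ Subgroup.normalizer (D : Set H) := by
    rw [Subgroup.mem_normalizer_iff]
    intro h
    constructor
    · exact fun hh => hD1 h hh
    · intro hh
      have := hD2 _ hh
      have h2 : t⁻¹ * (t * h * t⁻¹) * t = h := by group
      rwa [h2] at this
  have hTD : ∀ y ∈ T, y ∈ D := by
    intro y hy
    have h1 : y = cj t y 0 := by simp [cj]
    rcases Nat.eq_zero_or_pos m with h0 | h0
    · subst h0
      have h2 := cj_mem_of_mlaw hc hH t y
      have h3 : cj t y 0 ∈ D := hED y hy h2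
      rwa [← h1] at h3
    · rw [h1]
      exact hED y hy (cj_mem_E t y h0)
  have hDle : D ≤ Subgroup.normalizer (D : Set H) := Subgroup.le_normalizer
  have hSsub : ∀ s ∈ S, s ∈ D ⊔ Subgroup.zpowers t := by
    intro s hs
    have h1 : s * (t ^ (κ s))⁻¹ ∈ D := hTD _ (Finset.mem_image_of_mem _ hs)
    have h2 : s = (s * (t ^ (κ s))⁻¹) * t ^ (κ s) := by group
    rw [h2]
    exact Subgroup.mul_mem_sup h1 (Subgroup.zpow_mem_zpowers t _)
  have htop : D ⊔ Subgroup.zpowers t = ⊤ := by
    rw [eq_top_iff, ← hS, Subgroup.closure_le]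
    exact fun s hs => hSsub s hs
  have hnormal : D.Normal := by
    rw [← Subgroup.normalizer_eq_top_iff, eq_top_iff, ← htop]
    refine sup_le hDle ?_
    rw [Subgroup.zpowers_le]
    exact htD
  have hfT : ∀ y ∈ T, f y = 1 := by
    intro y hy
    obtain ⟨s, hs, rfl⟩ := Finset.mem_image.1 hy
    rw [map_mul, map_inv, map_zpow, ht, hκ s, mul_inv_cancel]
  have hDker : D ≤ f.ker := by
    show Subgroup.closure _ ≤ _
    rw [Subgroup.closure_le]
    rintro g ⟨y, hy, j, hj, rfl⟩
    show cj t y j ∈ f.ker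
    rw [MonoidHom.mem_ker, map_cj, hfT y hy]
    simp [cj]
  have hdec : ∀ h : H, ∃ d ∈ D, ∃ k : ℤ, h = d * t ^ k := by
    intro h
    have h1 : h ∈ D ⊔ Subgroup.zpowers t := by rw [htop]; trivial
    rw [Subgroup.mem_sup_of_normal_left] at h1
    obtain ⟨d, hd, z, ⟨k, rfl⟩, rfl⟩ := h1
    exact ⟨d, hd, k, rfl⟩
  have hkerD : f.ker = D := by
    apply le_antisymm _ hDker
    intro h hh
    obtain ⟨d, hd, k, rfl⟩ := hdec h
    rw [MonoidHom.mem_ker, map_mul, (MonoidHom.mem_ker).1 (hDker hd), one_mul, map_zpow, ht] at hh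
    rw [hinj k hh, zpow_zero, mul_one]
    exact hd
  have hDfg : Group.FG f.ker := by
    rw [Group.fg_iff_subgroup_fg, hkerD, Subgroup.fg_iff]
    refine ⟨_, rfl, ?_⟩
    have : {g | ∃ y ∈ T, ∃ j : ℕ, j < m ∧ g = cj t y j} =
        ((T ×ˢ Finset.range m).image fun p => cj t p.1 p.2 : Finset H) := by
      ext g
      simp only [Set.mem_ofPred_eq, Finset.coe_image, Set.mem_image, Finset.mem_coe,
        Finset.mem_product, Finset.mem_range, Prod.exists]
      constructor
      · rintro ⟨y, hy, j, hj, rfl⟩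
        exact ⟨y, j, ⟨hy, hj⟩, rfl⟩
      · rintro ⟨y, j, ⟨hy, hj⟩, rfl⟩
        exact ⟨y, hy, j, hj, rfl⟩
    rw [this]
    exact Finset.finite_toSet _
  refine ⟨hDfg, ?_⟩
  intro hVN
  -- the verbal subgroup of `e`-th powers of the kernel
  obtain ⟨P, hPn, hPf, hPnil⟩ := hVN.exists_normal
  set e := P.index with he
  have he0 : 0 < e := Nat.pos_of_ne_zero (Subgroup.finiteIndex_iff.1 hPf)
  let K : Subgroup H := Subgroup.closure {g | ∃ l ∈ f.ker, g = l ^ e}
  have hKker : K ≤ f.ker := by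
    show Subgroup.closure _ ≤ _
    rw [Subgroup.closure_le]
    rintro g ⟨l, hl, rfl⟩
    exact pow_mem hl e
  have hKP : K ≤ P.map f.ker.subtype := by
    show Subgroup.closure _ ≤ _
    rw [Subgroup.closure_le]
    rintro g ⟨l, hl, rfl⟩
    exact ⟨⟨l, hl⟩ ^ e, P.pow_index_mem ⟨l, hl⟩, rfl⟩
  have hPmn : Group.IsNilpotent (P.map f.ker.subtype) :=
    (Group.isNilpotent_congr (P.equivMapOfInjective f.ker.subtype f.ker.subtype_injective)).1 hPnil
  have hKnil : Group.IsNilpotent K := nilpotent_of_le hKP hPmn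
  have hKnormal : K.Normal := by
    refine ⟨?_⟩
    intro k hk h
    have : ∀ k ∈ K, h * k * h⁻¹ ∈ K := by
      intro k hk
      induction hk using Subgroup.closure_induction with
      | mem g hg =>
        obtain ⟨l, hl, rfl⟩ := hg
        refine Subgroup.subset_closure ⟨h * l * h⁻¹, ?_, ?_⟩
        · exact (inferInstance : f.ker.Normal).conj_mem l hl h
        · rw [conj_pow]
      | one => simp
      | mul a b _ _ ha hb =>
        have : h * (a * b) * h⁻¹ = (h * a * h⁻¹) * (h * b * h⁻¹) := by group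
        rw [this]; exact mul_mem ha hb
      | inv a _ ha =>
        have : h * a⁻¹ * h⁻¹ = (h * a * h⁻¹)⁻¹ := by group
        rw [this]; exact inv_mem ha
    exact this k hk
  -- `K` has finite index in the kernel
  let K' : Subgroup f.ker := K.subgroupOf f.ker
  have hK'n : K'.Normal := Subgroup.normal_subgroupOf
  have hK'P : K' ≤ P := by
    intro x hx
    obtain ⟨y, hy, hxy⟩ := hKP hx
    have : y = x := Subtype.ext hxy
    rw [← this]; exact hy
  have hK'fin : Finite (f.ker ⧸ K') := by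
    -- image of P in the quotient is nilpotent, f.g., of finite exponent and of finite index
    let π := QuotientGroup.mk' K'
    have hπ : Surjective π := QuotientGroup.mk'_surjective _
    have h1 : (P.map π).FiniteIndex := by
      rw [Subgroup.finiteIndex_iff]
      have := Subgroup.index_map_dvd P hπ
      intro h0
      rw [h0] at this
      exact he0.ne' (Nat.eq_zero_of_zero_dvd this)
    have hfgq : Group.FG (f.ker ⧸ K') := by
      have := hDfg
      exact Group.fg_of_surjective (f := π) hπ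
    have h2 : Group.FG (P.map π) := @Subgroup.fg_of_index_ne_zero _ _ (P.map π) hfgq h1
    have h3 : Group.IsNilpotent (P.map π) := by
      have := hPnil
      exact Group.nilpotent_of_surjective (π.subgroupMap P) (π.subgroupMap_surjective P)
    have h4 : Finite (P.map π) := by
      refine finite_of_nilpotent_exponent _ h2 ⟨e, he0, ?_⟩
      rintro ⟨_, x, hx, rfl⟩
      apply Subtype.ext
      show π x ^ e = 1
      rw [← map_pow]
      refine (QuotientGroup.eq_one_iff _).2 ?_
      show ((x ^ e : f.ker) : H) ∈ K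
      exact Subgroup.subset_closure ⟨x, x.2, rfl⟩
    have h5 : Finite ((f.ker ⧸ K') ⧸ (P.map π)) := Subgroup.finite_quotient_of_finiteIndex
    exact Finite.of_subgroup_quotient (P.map π)
  obtain ⟨q, hq, hq2⟩ := exists_q_nilp hc
  have hW := hq2 H hH K hKnil t
  refine ⟨K ⊔ Subgroup.zpowers (t ^ q), ?_, hW⟩
  -- finite index
  set W := K ⊔ Subgroup.zpowers (t ^ q) with hWdef
  have hdec2 : ∀ h : H, ∃ l ∈ f.ker, ∃ k : ℤ, h = l * t ^ k := by
    intro h
    obtain ⟨d, hd, k, hk⟩ := hdec h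
    exact ⟨d, hDker hd, k, hk⟩
  have hsurj : Surjective (fun p : (f.ker ⧸ K') × Fin q =>
      (QuotientGroup.mk (((Quotient.out p.1 : f.ker) : H) * t ^ (p.2 : ℕ)) : H ⧸ W)) := by
    intro x
    obtain ⟨h, rfl⟩ := QuotientGroup.mk_surjective x
    obtain ⟨l, hl, k, rfl⟩ := hdec2 h
    have hqz : (0 : ℤ) < q := by exact_mod_cast hq
    have hmod0 : 0 ≤ k % q := Int.emod_nonneg _ hqz.ne'
    have hmod1 : k % q < q := Int.emod_lt_of_pos _ hqz
    refine ⟨⟨QuotientGroup.mk ⟨l, hl⟩, ⟨(k % q).toNat, by omega⟩⟩, ?_⟩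
    show (QuotientGroup.mk _ : H ⧸ W) = QuotientGroup.mk _
    rw [QuotientGroup.eq]
    set r : f.ker := Quotient.out (QuotientGroup.mk ⟨l, hl⟩ : f.ker ⧸ K') with hr
    have hrl : (QuotientGroup.mk r : f.ker ⧸ K') = QuotientGroup.mk ⟨l, hl⟩ := Quotient.out_eq _
    rw [QuotientGroup.eq] at hrl
    have hrl2 : (r : H)⁻¹ * l ∈ K := hrl
    have hk : t ^ k = t ^ ((k % q).toNat) * (t ^ q) ^ (k / q) := by
      rw [← zpow_natCast t ((k % q).toNat), Int.toNat_of_nonneg hmod0, ← zpow_natCast t q,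
        ← zpow_mul, ← zpow_add]
      congr 1
      exact (Int.emod_add_mul_ediv k q).symm
    rw [hk]
    set a := t ^ ((k % q).toNat) with ha
    have h6 : ((r : H) * a)⁻¹ * (l * (a * (t ^ q) ^ (k / q))) =
      (a⁻¹ * ((r : H)⁻¹ * l) * a⁻¹⁻¹) * (t ^ q) ^ (k / q) := by group
    rw [h6]
    exact Subgroup.mul_mem_sup (hKnormal.conj_mem _ hrl2 _) (Subgroup.zpow_mem_zpowers _ _)
  have hfin : Finite (H ⧸ W) := Finite.of_surjective _ hsurj
  exact Subgroup.finiteIndex_of_finite_quotient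

end Fix

end Pool.Agent.H12RelFree
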