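import Mathlib
import Pool.Agent.H12_RelFree.Unip

set_option autoImplicit false

/-!
# Reduction to rank two
-/

namespace Pool.Agent.H12RelFree

/-- `H` belongs to the variety defined by the words in `N`. -/
def InVar {n : ℕ} (N : Subgroup (FreeGroup (Fin n))) (H : Type) [Group H] : Prop :=
  ∀ φ : FreeGroup (Fin n) →* H, ∀ w ∈ N, φ w = 1


theorem inVar_pow_law {n : ℕ} (N : Subgroup (FreeGroup (Fin n)))
    {w : FreeGroup (Fin n)} (hw : w ∈ N) (i : Fin n) (e : ℤ)
    (he : FreeGroup.lift (fun j => if j = i then Multiplicative.ofAdd (1:ℤ) else 1) w =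
      Multiplicative.ofAdd e) (H : Type) [Group H] (hH : InVar N H) (h : H) : h ^ e = 1 := by
  let φ : FreeGroup (Fin n) →* H := FreeGroup.lift fun j => if j = i then h else 1
  have h1 : φ = (zpowersHom H h).comp
      (FreeGroup.lift (fun j => if j = i then Multiplicative.ofAdd (1:ℤ) else 1)) := by
    ext j
    by_cases hj : j = i <;> simp [φ, hj]
  have h2 := hH φ w hw
  rw [h1, MonoidHom.comp_apply, he] at h2
  simpa using h2

/-- For `n ≥ 2` and all exponent sums zero. -/
theorem exists_mlaw_rank_ge_two {n : ℕ} (hn : 2 ≤ n) (N : Subgroup (FreeGroup (Fin n))) [N.Normal]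
    (hfi : ∀ φ : FreeGroup (Fin n) →* FreeGroup (Fin n), ∀ x ∈ N, φ x ∈ N)
    (hN : N ≠ ⊥)
    (S : Finset (FreeGroup (Fin n)))
    (hS : Subgroup.normalClosure (S : Set (FreeGroup (Fin n))) = N)
    (hz : ∀ w ∈ N, ∀ i : Fin n,
      FreeGroup.lift (fun j => if j = i then Multiplicative.ofAdd (1:ℤ) else 1) w = 1) :
    ∃ m : ℕ, ∃ c ∈ E X Y m, ∀ (H : Type) [Group H], InVar N H → MLaw m c H := by
  classical
  let i0 : Fin n := ⟨0, by omega⟩
  let i1 : Fin n := ⟨1, by omega⟩
  have h01 : i1 ≠ i0 := by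
    intro h; have := congrArg Fin.val h; simp [i0, i1] at this
  let ρ : FreeGroup (Fin n) →* F2 :=
    FreeGroup.lift fun j => if j = i0 then X else if j = i1 then Y else 1
  let σ : F2 →* FreeGroup (Fin n) := FreeGroup.lift fun b => cond b (FreeGroup.of i1) (FreeGroup.of i0)
  have hρσ : ρ.comp σ = MonoidHom.id _ := by
    ext b
    cases b with
    | false => simp [ρ, σ]
    | true => simp [ρ, σ, h01]
  have hρσ' : ∀ w, ρ (σ w) = w := fun w => DFunLike.congr_fun hρσ w
  have hsurj : Function.Surjective ρ := fun w => ⟨σ w, hρσ' w⟩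
  let N2 : Subgroup F2 := N.map ρ
  have : N2.Normal := Subgroup.Normal.map inferInstance ρ hsurj
  have hfi2 : ∀ θ : F2 →* F2, ∀ w ∈ N2, θ w ∈ N2 := by
    rintro θ _ ⟨w, hw, rfl⟩
    refine ⟨σ (θ (ρ w)), hfi (σ.comp (θ.comp ρ)) w hw, hρσ' _⟩
  have hN2 : N2 ≠ ⊥ := by
    obtain ⟨⟨w, hw⟩, hw1'⟩ := Subgroup.ne_bot_iff_exists_ne_one.1 hN
    have hw1 : w ≠ 1 := fun h => hw1' (Subtype.ext h)
    have h1 : σ (emb n w) ∈ N := hfi (σ.comp (emb n)) w hw
    have h2 : emb n w ∈ N2 := ⟨σ (emb n w), h1, hρσ' _⟩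
    intro hbot
    rw [hbot, Subgroup.mem_bot] at h2
    exact hw1 ((injective_iff_map_eq_one _).1 (emb_injective n) w h2)
  have hS2 : Subgroup.normalClosure ((S.image ρ : Finset F2) : Set F2) = N2 := by
    rw [Finset.coe_image, ← Subgroup.map_normalClosure _ _ hsurj, hS]
  have heps : ∀ w ∈ N2, eps w = 1 := by
    rintro _ ⟨w, hw, rfl⟩
    have := hz w hw i0
    have h3 : (eps.comp ρ) = FreeGroup.lift
        (fun j => if j = i0 then Multiplicative.ofAdd (1:ℤ) else 1) := by
      ext j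
      by_cases hj : j = i0
      · simp [ρ, hj, eps]
      · by_cases hj1 : j = i1
        · simp [ρ, hj1, h01, eps]
        · simp [ρ, hj, hj1, eps]
    rw [← h3] at this
    exact this
  obtain ⟨m, c, hc, hmem⟩ := milnor_of_fp N2 hfi2 hN2 _ hS2 heps
  refine ⟨m, c, hc, ?_⟩
  intro H _ hH ψ
  obtain ⟨w, hw, hw2⟩ := hmem
  rw [← hw2]
  exact hH (ψ.comp ρ) w hw

/-- For rank at most one, a word with all exponent sums zero is trivial. -/
theorem eq_one_of_rank_le_one {n : ℕ} (hn : n < 2) (w : FreeGroup (Fin n))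
    (hz : ∀ i : Fin n,
      FreeGroup.lift (fun j => if j = i then Multiplicative.ofAdd (1:ℤ) else 1) w = 1) : w = 1 := by
  interval_cases n
  · exact Subsingleton.elim _ _
  · have h1 : ∀ w : FreeGroup (Fin 1), w = (FreeGroup.of 0) ^
        (Multiplicative.toAdd (FreeGroup.lift
          (fun j : Fin 1 => if j = 0 then Multiplicative.ofAdd (1:ℤ) else 1) w)) := by
      intro w
      have : MonoidHom.id (FreeGroup (Fin 1)) = (zpowersHom _ (FreeGroup.of 0)).comp
          (FreeGroup.lift (fun j : Fin 1 => if j = 0 then Multiplicative.ofAdd (1:ℤ) else 1)) := by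
        ext j
        have : j = 0 := Subsingleton.elim _ _
        subst this
        simp
      have h2 := DFunLike.congr_fun this w
      exact h2
    have h2 := h1 w
    rw [hz 0] at h2
    simpa using h2

/-- Every f.p. relatively free group yields a Milnor law for its variety. -/
theorem exists_mlaw {n : ℕ} (N : Subgroup (FreeGroup (Fin n))) [N.Normal]
    (hfi : ∀ φ : FreeGroup (Fin n) →* FreeGroup (Fin n), ∀ x ∈ N, φ x ∈ N)
    (hN : N ≠ ⊥)
    (hS : ∃ S : Finset (FreeGroup (Fin n)),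
      Subgroup.normalClosure (S : Set (FreeGroup (Fin n))) = N) :
    ∃ m : ℕ, ∃ c ∈ E X Y m, ∀ (H : Type) [Group H], InVar N H → MLaw m c H := by
  obtain ⟨S, hS⟩ := hS
  by_cases hz : ∀ w ∈ N, ∀ i : Fin n,
      FreeGroup.lift (fun j => if j = i then Multiplicative.ofAdd (1:ℤ) else 1) w = 1
  · by_cases hn : 2 ≤ n
    · exact exists_mlaw_rank_ge_two hn N hfi hN S hS hz
    · exfalso
      apply hN
      rw [eq_bot_iff]
      intro w hw
      rw [Subgroup.mem_bot]
      exact eq_one_of_rank_le_one (by omega) w (hz w hw)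
  · push Not at hz
    obtain ⟨w, hw, i, hi⟩ := hz
    obtain ⟨e, he⟩ : ∃ e : ℤ, FreeGroup.lift
      (fun j => if j = i then Multiplicative.ofAdd (1:ℤ) else 1) w = Multiplicative.ofAdd e :=
      ⟨_, rfl⟩
    have he0 : e ≠ 0 := by
      intro h
      apply hi
      rw [he, h]; rfl
    refine ⟨e.natAbs, Y, ?_, ?_⟩
    · have : Y = cj X Y 0 := by simp [cj]
      rw [this]
      simp only [cj, pow_zero, one_mul, inv_one, mul_one]
      refine Subgroup.subset_closure ⟨0, by omega, by simp [cj]⟩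
    · intro H _ hH ψ
      have h1 : ∀ h : H, h ^ e.natAbs = 1 := by
        intro h
        have h2 := inVar_pow_law N hw i e he H hH h
        rcases Int.natAbs_eq e with h3 | h3
        · rw [h3, zpow_natCast] at h2; exact h2
        · rw [h3, zpow_neg, zpow_natCast, inv_eq_one] at h2; exact h2
      rw [map_mul, map_cj, cj, h1]
      simp

end Pool.Agent.H12RelFree
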