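import Mathlib
import Pool.Agent.H12_RelFree.Good
import Pool.Agent.H12_RelFree.Reduce

set_option autoImplicit false

/-!
# Elementary amenable groups in varieties with a Milnor law
-/

namespace Pool.Agent.H12RelFree

open Function
open scoped IsMulCommutative

/-- The class of elementary amenable groups (Day): the smallest class of groups that contains all
finite groups and all abelian groups and is closed under subgroups, quotients, extensions and
directed unions.  (Subgroups and quotients are formulated through injective and surjective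
homomorphisms, so the class is also closed under isomorphism.) -/
inductive ElementaryAmenable : (G : Type) → [Group G] → Prop
  | of_finite (G : Type) [Group G] (h : Finite G) : ElementaryAmenable G
  | of_comm (G : Type) [Group G] (h : ∀ a b : G, a * b = b * a) : ElementaryAmenable G
  | of_injective (G H : Type) [Group G] [Group H] (f : G →* H) (hf : Injective f)
      (h : ElementaryAmenable H) : ElementaryAmenable G
  | of_surjective (G H : Type) [Group G] [Group H] (f : G →* H) (hf : Surjective f)
      (h : ElementaryAmenable G) : ElementaryAmenable H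
  | of_extension (G : Type) [Group G] (N : Subgroup G) [N.Normal]
      (h1 : ElementaryAmenable N) (h2 : ElementaryAmenable (G ⧸ N)) : ElementaryAmenable G
  | of_directed (G : Type) [Group G] (ι : Type) [Nonempty ι] (K : ι → Subgroup G)
      (hd : Directed (· ≤ ·) K) (hK : ∀ g : G, ∃ i, g ∈ K i)
      (h : ∀ i, ElementaryAmenable (K i)) : ElementaryAmenable G

section Fix

variable {m : ℕ} {c : F2} (hc : c ∈ E X Y m)
include hc

theorem GOOD.of_cyclic (Q : Type) [Group Q] (g₀ : Q)
    (hg₀ : ∀ q : Q, q ∈ Subgroup.zpowers g₀) : GOOD m c Q := by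
  rcases finite_or_infinite Q with h | h
  · exact GOOD.of_finite Q
  · exact GOOD.of_infinite_cyclic hc Q g₀ hg₀

omit hc in
theorem GOOD.ext' {Q : Type} [Group Q] (P : Subgroup Q) [P.Normal]
    (h1 : GOOD m c P) (h2 : GOOD m c (Q ⧸ P)) : GOOD m c Q := by
  refine GOOD.ext (QuotientGroup.mk' P) (QuotientGroup.mk'_surjective P) ?_ h2
  rw [QuotientGroup.ker_mk']
  exact h1

theorem GOOD.of_comm_aux (n : ℕ) : ∀ (Q : Type) [Group Q], (∀ a b : Q, a * b = b * a) →
    ∀ S : Finset Q, S.card ≤ n → Subgroup.closure (S : Set Q) = ⊤ → GOOD m c Q := by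
  classical
  induction n with
  | zero =>
    intro Q _ _ S hS hcl
    have : S = ∅ := Finset.card_eq_zero.1 (Nat.le_zero.1 hS)
    rw [this, Finset.coe_empty, Subgroup.closure_empty] at hcl
    have : Finite Q := by
      have h1 : Subsingleton Q := ⟨fun a b => by
        have ha : a ∈ (⊥ : Subgroup Q) := by rw [hcl]; trivial
        have hb : b ∈ (⊥ : Subgroup Q) := by rw [hcl]; trivial
        rw [Subgroup.mem_bot.1 ha, Subgroup.mem_bot.1 hb]⟩
      infer_instance
    exact GOOD.of_finite Q
  | succ n ih =>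
    intro Q _ hcomm S hS hcl
    by_cases hne : S.Nonempty
    · obtain ⟨a, ha⟩ := hne
      let P := Subgroup.zpowers a
      have hPn : P.Normal := ⟨fun x hx g => by
        have : g * x * g⁻¹ = x := by rw [hcomm g x, mul_inv_cancel_right]
        rw [this]; exact hx⟩
      refine GOOD.ext' P ?_ ?_
      · refine GOOD.of_cyclic hc P ⟨a, Subgroup.mem_zpowers a⟩ ?_
        rintro ⟨_, k, rfl⟩
        exact ⟨k, Subtype.ext (by simp)⟩
      · refine ih (Q ⧸ P) ?_ ((S.erase a).image (QuotientGroup.mk' P)) ?_ ?_
        · intro x y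
          obtain ⟨x, rfl⟩ := QuotientGroup.mk_surjective x
          obtain ⟨y, rfl⟩ := QuotientGroup.mk_surjective y
          rw [← QuotientGroup.mk_mul, hcomm, QuotientGroup.mk_mul]
        · refine le_trans Finset.card_image_le ?_
          rw [Finset.card_erase_of_mem ha]; omega
        · rw [eq_top_iff]
          have h1 : (Subgroup.closure (S : Set Q)).map (QuotientGroup.mk' P) = ⊤ := by
            rw [hcl]; exact Subgroup.map_top_of_surjective _ (QuotientGroup.mk'_surjective P)
          rw [← h1, MonoidHom.map_closure, Subgroup.closure_le]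
          rintro _ ⟨s, hs, rfl⟩
          by_cases hsa : s = a
          · subst hsa
            have : QuotientGroup.mk' P s = 1 :=
              (QuotientGroup.eq_one_iff s).2 (Subgroup.mem_zpowers s)
            rw [this]; exact one_mem _
          · refine Subgroup.subset_closure ?_
            rw [Finset.coe_image]
            exact ⟨s, Finset.mem_coe.2 (Finset.mem_erase.2 ⟨hsa, hs⟩), rfl⟩
    · rw [Finset.not_nonempty_iff_eq_empty] at hne
      exact ih Q hcomm S (by rw [hne]; simp) hcl

theorem GOOD.of_comm (Q : Type) [Group Q] (hcomm : ∀ a b : Q, a * b = b * a)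
    (hfg : Group.FG Q) : GOOD m c Q := by
  obtain ⟨S, hS⟩ := hfg.1
  exact GOOD.of_comm_aux hc S.card Q hcomm S le_rfl hS

theorem GOOD.of_nilpotent (Q : Type) [Group Q] [Group.IsNilpotent Q] :
    MLaw m c Q → Group.FG Q → GOOD m c Q := by
  refine Group.nilpotent_center_quotient_ind
    (P := fun Q _ _ => MLaw m c Q → Group.FG Q → GOOD m c Q) Q ?_ ?_
  · intro Q _ _ _ _
    exact GOOD.of_finite Q
  · intro Q _ _ ih hM hfg
    have h1 : GOOD m c (Q ⧸ Subgroup.center Q) := by
      apply ih
      · exact hM.of_surjective _ (QuotientGroup.mk'_surjective (Subgroup.center Q))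
      · exact Group.fg_of_surjective (QuotientGroup.mk'_surjective (Subgroup.center Q))
    have h2 := (h1 Q hM hfg (QuotientGroup.mk' _) (QuotientGroup.mk'_surjective _)).1
    rw [QuotientGroup.ker_mk'] at h2
    refine GOOD.ext' (Subgroup.center Q) ?_ h1
    exact GOOD.of_comm hc _ (fun a b => mul_comm a b) h2

theorem GOOD.of_VN (Q : Type) [Group Q] (hM : MLaw m c Q) (hfg : Group.FG Q) (hVN : VN Q) :
    GOOD m c Q := by
  obtain ⟨P, hPn, hPf, hPnil⟩ := hVN.exists_normal
  refine GOOD.ext' P ?_ ?_
  · exact GOOD.of_nilpotent hc P (hM.of_injective P.subtype P.subtype_injective)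
      (@Subgroup.fg_of_index_ne_zero _ _ P hfg hPf)
  · have : Finite (Q ⧸ P) := Subgroup.finite_quotient_of_finiteIndex
    exact GOOD.of_finite _

/-- every f.g. section with the Milnor law of an elementary amenable group is virtually
nilpotent -/
theorem section_VN (G : Type) [Group G] (hG : ElementaryAmenable G) :
    ∀ (H : Type) [Group H], MLaw m c H → Group.FG H → ∀ (K : Subgroup G) (φ : K →* H),
      Surjective φ → VN H := by
  induction hG with
  | of_finite G h =>
    intro H _ _ _ K φ hφ
    have : Finite H := Finite.of_surjective φ hφ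
    exact VN.of_finite H
  | of_comm G h =>
    intro H _ _ _ K φ hφ
    apply VN.of_nilpotent
    have hcomm : ∀ a b : H, a * b = b * a := by
      intro a b
      obtain ⟨x, rfl⟩ := hφ a
      obtain ⟨y, rfl⟩ := hφ b
      rw [← map_mul, ← map_mul]
      congr 1
      exact Subtype.ext (h x y)
    let _ : CommGroup H := { (inferInstance : Group H) with mul_comm := hcomm }
    exact CommGroup.isNilpotent
  | of_injective G G' f hf _ ih =>
    intro H _ hM hfg K φ hφ
    let e := K.equivMapOfInjective f hf
    refine ih H hM hfg (K.map f) (φ.comp e.symm.toMonoidHom) ?_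
    exact hφ.comp e.symm.surjective
  | of_surjective G G' f hf _ ih =>
    intro H _ hM hfg K φ hφ
    let r : (K.comap f) →* K :=
      { toFun := fun x => ⟨f x.1, x.2⟩
        map_one' := by apply Subtype.ext; simp
        map_mul' := fun a b => by apply Subtype.ext; simp }
    have hr : Surjective r := by
      rintro ⟨k, hk⟩
      obtain ⟨x, rfl⟩ := hf k
      exact ⟨⟨x, hk⟩, rfl⟩
    exact ih H hM hfg (K.comap f) (φ.comp r) (hφ.comp hr)
  | of_extension G N _ _ ih1 ih2 =>
    intro H _ hM hfg K φ hφ
    let π := QuotientGroup.mk' N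
    let L : Subgroup H := (N.subgroupOf K).map φ
    have hL : L.Normal := Subgroup.Normal.map inferInstance φ hφ
    let ψ : K →* H ⧸ L := (QuotientGroup.mk' L).comp φ
    have hψ : Surjective ψ := (QuotientGroup.mk'_surjective L).comp hφ
    let r : K →* K.map π := π.subgroupMap K
    have hr : Surjective r := π.subgroupMap_surjective K
    have hker : r.ker ≤ ψ.ker := by
      intro x hx
      rw [MonoidHom.mem_ker] at hx ⊢
      have h1 : π x.1 = 1 := congrArg Subtype.val hx
      have h2 : x.1 ∈ N := (QuotientGroup.eq_one_iff _).1 h1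
      exact (QuotientGroup.eq_one_iff _).2 ⟨x, h2, rfl⟩
    let θ : K.map π →* H ⧸ L := r.liftOfSurjective hr ⟨ψ, hker⟩
    have hθ : Surjective θ := by
      intro y
      obtain ⟨x, rfl⟩ := hψ y
      exact ⟨r x, MonoidHom.liftOfRightInverse_comp_apply _ _ _ _ _⟩
    have hMQ : MLaw m c (H ⧸ L) := hM.of_surjective _ (QuotientGroup.mk'_surjective L)
    have hfgQ : Group.FG (H ⧸ L) := Group.fg_of_surjective (QuotientGroup.mk'_surjective L)
    have hVQ : VN (H ⧸ L) := ih2 (H ⧸ L) hMQ hfgQ (K.map π) θ hθ
    have hgood := GOOD.of_VN hc (H ⧸ L) hMQ hfgQ hVQ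
    have h3 := hgood H hM hfg (QuotientGroup.mk' L) (QuotientGroup.mk'_surjective L)
    rw [QuotientGroup.ker_mk'] at h3
    obtain ⟨hLfg, hLV⟩ := h3
    apply hLV
    have hML : MLaw m c L := hM.of_injective L.subtype L.subtype_injective
    let s : (K.subgroupOf N) →* L :=
      { toFun := fun x => ⟨φ ⟨x.1.1, x.2⟩, ⟨⟨x.1.1, x.2⟩, x.1.2, rfl⟩⟩
        map_one' := by
          apply Subtype.ext
          exact map_one φ
        map_mul' := fun a b => by
          apply Subtype.ext
          exact map_mul φ ⟨a.1.1, a.2⟩ ⟨b.1.1, b.2⟩ }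
    have hs : Surjective s := by
      rintro ⟨_, x, hx, rfl⟩
      exact ⟨⟨⟨x.1, hx⟩, x.2⟩, rfl⟩
    exact ih1 L hML hLfg (K.subgroupOf N) s hs
  | of_directed G ι K hd hK _ ih =>
    intro H _ hM hfg K' φ hφ
    classical
    obtain ⟨S, hS⟩ := hfg.1
    choose g hg using hφ
    -- an index containing all lifts
    have hidx : ∃ i, ∀ s ∈ S, ((g s : K') : G) ∈ K i := by
      clear hS
      induction S using Finset.induction_on with
      | empty => exact ⟨Classical.arbitrary ι, by simp⟩
      | insert a S _ ihS =>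
        obtain ⟨i, hi⟩ := ihS
        obtain ⟨j, hj⟩ := hK ((g a : K') : G)
        obtain ⟨k, hk1, hk2⟩ := hd i j
        refine ⟨k, ?_⟩
        intro s hs
        rcases Finset.mem_insert.1 hs with rfl | hs
        · exact hk2 hj
        · exact hk1 (hi s hs)
    obtain ⟨i, hi⟩ := hidx
    let s : (K'.subgroupOf (K i)) →* H :=
      { toFun := fun x => φ ⟨x.1.1, x.2⟩
        map_one' := map_one φ
        map_mul' := fun a b => map_mul φ ⟨a.1.1, a.2⟩ ⟨b.1.1, b.2⟩ }
    have hs : Surjective s := by
      rw [← MonoidHom.range_eq_top, eq_top_iff, ← hS, Subgroup.closure_le]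
      intro x hx
      exact ⟨⟨⟨(g x : K').1, hi x hx⟩, (g x).2⟩, hg x⟩
    exact ih i H hM hfg (K'.subgroupOf (K i)) s hs

end Fix

/-- Main theorem. -/
theorem main {n : ℕ} (N : Subgroup (FreeGroup (Fin n))) [N.Normal]
    (hfi : ∀ φ : FreeGroup (Fin n) →* FreeGroup (Fin n), ∀ x ∈ N, φ x ∈ N)
    (hN : N ≠ ⊥)
    (hS : ∃ S : Finset (FreeGroup (Fin n)),
      Subgroup.normalClosure (S : Set (FreeGroup (Fin n))) = N)
    (H : Type) [Group H] (hH : ∀ φ : FreeGroup (Fin n) →* H, ∀ w ∈ N, φ w = 1)
    (hfg : Group.FG H) (M : Subgroup H) [M.Normal] (hEA : ElementaryAmenable (H ⧸ M)) :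
    (∃ P : Subgroup (H ⧸ M), P.FiniteIndex ∧ Group.IsNilpotent P) ∧ Group.FG M := by
  obtain ⟨m, c, hc, hlaw⟩ := exists_mlaw N hfi hN hS
  have hM : MLaw m c H := hlaw H hH
  have hMQ : MLaw m c (H ⧸ M) := hM.of_surjective _ (QuotientGroup.mk'_surjective M)
  have hfgQ : Group.FG (H ⧸ M) := Group.fg_of_surjective (QuotientGroup.mk'_surjective M)
  have hV : VN (H ⧸ M) := section_VN hc (H ⧸ M) hEA (H ⧸ M) hMQ hfgQ ⊤
    (Subgroup.topEquiv (G := H ⧸ M)).toMonoidHom (Subgroup.topEquiv (G := H ⧸ M)).surjective
  refine ⟨hV, ?_⟩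
  have hgood := GOOD.of_VN hc (H ⧸ M) hMQ hfgQ hV
  have h3 := (hgood H hM hfg (QuotientGroup.mk' M) (QuotientGroup.mk'_surjective M)).1
  rw [QuotientGroup.ker_mk'] at h3
  exact h3

end Pool.Agent.H12RelFree
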