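import Mathlib

set_option autoImplicit false

/-!
# Words as paths in a Schreier graph with labelled edges
-/

namespace Pool.Agent.H12RelFree.Wr

open Function

section Defs

variable {n : ℕ} {X : Type} [MulAction (FreeGroup (Fin n)) X] {Ω : Type} [Group Ω]

/-- translation of functions -/
def shiftEquiv (X Ω : Type) [MulAction (FreeGroup (Fin n)) X] [Group Ω]
    (w : FreeGroup (Fin n)) : MulAut (X → Ω) where
  toFun f v := f (w⁻¹ • v)
  invFun f v := f (w • v)
  left_inv f := by funext v; simp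
  right_inv f := by funext v; simp
  map_mul' f g := rfl

/-- the action of the free group on functions -/
def shiftAct (X Ω : Type) [MulAction (FreeGroup (Fin n)) X] [Group Ω] :
    FreeGroup (Fin n) →* MulAut (X → Ω) where
  toFun w := shiftEquiv X Ω w
  map_one' := by
    ext f v
    show f ((1 : FreeGroup (Fin n))⁻¹ • v) = f v
    rw [inv_one, one_smul]
  map_mul' a b := by
    ext f v
    show f ((a * b)⁻¹ • v) = f (b⁻¹ • a⁻¹ • v)
    rw [mul_inv_rev, mul_smul]

/-- the map to the wreath product given by an edge labelling -/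
def phi (lam : Fin n → X → Ω) :
    FreeGroup (Fin n) →* ((X → Ω) ⋊[shiftAct X Ω] FreeGroup (Fin n)) :=
  FreeGroup.lift fun i => ⟨lam i, FreeGroup.of i⟩

theorem phi_right (lam : Fin n → X → Ω) (w : FreeGroup (Fin n)) :
    (phi lam w).right = w := by
  have : (SemidirectProduct.rightHom).comp (phi lam) = MonoidHom.id _ := by
    ext i
    simp [phi]
  exact DFunLike.congr_fun this w

/-- label of the path `w` starting at `v` -/
def E (lam : Fin n → X → Ω) (v : X) (w : FreeGroup (Fin n)) : Ω := (phi lam w).left v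

theorem E_mul (lam : Fin n → X → Ω) (v : X) (a b : FreeGroup (Fin n)) :
    E lam v (a * b) = E lam v a * E lam (a⁻¹ • v) b := by
  unfold E
  rw [map_mul, SemidirectProduct.mul_left, phi_right]
  rfl

theorem E_one (lam : Fin n → X → Ω) (v : X) : E lam v 1 = 1 := by
  unfold E
  rw [map_one]; rfl

theorem E_of (lam : Fin n → X → Ω) (v : X) (i : Fin n) :
    E lam v (FreeGroup.of i) = lam i v := by
  unfold E phi
  rw [FreeGroup.lift_apply_of]

theorem E_inv (lam : Fin n → X → Ω) (v : X) (a : FreeGroup (Fin n)) :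
    E lam v a⁻¹ = (E lam (a • v) a)⁻¹ := by
  have h := E_mul lam (a • v) a a⁻¹
  rw [mul_inv_cancel, E_one, inv_smul_smul] at h
  exact (inv_eq_of_mul_eq_one_right h.symm).symm

/-- evaluation of loops at `v` -/
def ev (lam : Fin n → X → Ω) (v : X) : MulAction.stabilizer (FreeGroup (Fin n)) v →* Ω where
  toFun r := E lam v r
  map_one' := E_one lam v
  map_mul' a b := by
    show E lam v (a.1 * b.1) = E lam v a.1 * E lam v b.1
    rw [E_mul]
    have : a.1⁻¹ • v = v := by
      rw [inv_smul_eq_iff]; exact a.2.symm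
    rw [this]

/-- if all labels lie in a subgroup so do the labels of paths -/
theorem E_mem (lam : Fin n → X → Ω) (K : Subgroup Ω) (h : ∀ i v, lam i v ∈ K)
    (w : FreeGroup (Fin n)) : ∀ v, E lam v w ∈ K := by
  induction w using FreeGroup.induction_on with
  | C1 => intro v; rw [E_one]; exact one_mem _
  | of i => intro v; show E lam v (FreeGroup.of i) ∈ K; rw [E_of]; exact h i v
  | inv_of i _ =>
    intro v; show E lam v (FreeGroup.of i)⁻¹ ∈ K; rw [E_inv, E_of]; exact inv_mem (h i _)
  | mul a b ha hb => intro v; rw [E_mul]; exact mul_mem (ha v) (hb _)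

/-- the label of `w` depends only on finitely many edges near the starting point -/
theorem exists_dep (w : FreeGroup (Fin n)) :
    ∃ D : Finset (FreeGroup (Fin n)), ∀ (X : Type) [MulAction (FreeGroup (Fin n)) X]
      (Ω : Type) [Group Ω] (lam lam' : Fin n → X → Ω) (v : X),
      (∀ d ∈ D, ∀ i, lam i (d • v) = lam' i (d • v)) → E lam v w = E lam' v w := by
  classical
  induction w using FreeGroup.induction_on with
  | C1 => exact ⟨∅, fun X _ Ω _ lam lam' v _ => by rw [E_one, E_one]⟩
  | of i =>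
    refine ⟨{1}, fun X _ Ω _ lam lam' v h => ?_⟩
    have := h 1 (Finset.mem_singleton_self _) i
    show E lam v (FreeGroup.of i) = E lam' v (FreeGroup.of i)
    rw [E_of, E_of]
    simpa using this
  | inv_of i _ =>
    refine ⟨{FreeGroup.of i}, fun X _ Ω _ lam lam' v h => ?_⟩
    have := h (FreeGroup.of i) (Finset.mem_singleton_self _) i
    show E lam v (FreeGroup.of i)⁻¹ = E lam' v (FreeGroup.of i)⁻¹
    rw [E_inv, E_of, E_inv, E_of, this]
  | mul a b ha hb =>
    obtain ⟨D1, h1⟩ := ha
    obtain ⟨D2, h2⟩ := hb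
    refine ⟨D1 ∪ D2.image (fun x => x * a⁻¹), fun X _ Ω _ lam lam' v h => ?_⟩
    rw [E_mul, E_mul, h1 X Ω lam lam' v fun x hx => h x (Finset.mem_union_left _ hx)]
    congr 1
    refine h2 X Ω lam lam' (a⁻¹ • v) fun x hx i => ?_
    have := h (x * a⁻¹) (Finset.mem_union_right _ (Finset.mem_image_of_mem _ hx)) i
    rw [mul_smul] at this
    exact this

open scoped commutatorElement in
/-- loops that are trivial in homology mod `p` have trivial label for cyclic labellings of
order `p` -/
theorem E_eq_one_of_cyclic (p : ℕ) (lam : Fin n → X → Ω) (ω : Ω) (hω : ω ^ p = 1)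
    (h : ∀ i v, lam i v ∈ Subgroup.zpowers ω) (v : X)
    (R : Subgroup (FreeGroup (Fin n))) (hR : R = MulAction.stabilizer (FreeGroup (Fin n)) v)
    (s : FreeGroup (Fin n))
    (hs : s ∈ ⁅R, R⁆ ⊔ Subgroup.closure {g | ∃ r ∈ R, g = r ^ p}) : E lam v s = 1 := by
  subst hR
  set R := MulAction.stabilizer (FreeGroup (Fin n)) v with hRdef
  -- the kernel of `ev` as a subgroup of the free group
  have hle : ⁅R, R⁆ ⊔ Subgroup.closure {g | ∃ r ∈ R, g = r ^ p} ≤ (ev lam v).ker.map R.subtype := by
    apply sup_le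
    · rw [Subgroup.commutator_le]
      intro a ha b hb
      obtain ⟨k, hk⟩ := E_mem lam _ h a v
      obtain ⟨l, hl⟩ := E_mem lam _ h b v
      refine ⟨⁅(⟨a, ha⟩ : R), ⟨b, hb⟩⁆, ?_, rfl⟩
      rw [SetLike.mem_coe, MonoidHom.mem_ker, map_commutatorElement,
        commutatorElement_eq_one_iff_mul_comm]
      show E lam v a * E lam v b = E lam v b * E lam v a
      rw [← hk, ← hl]
      exact (Commute.zpow_zpow (Commute.refl ω) k l).eq
    · rw [Subgroup.closure_le]
      rintro _ ⟨r, hr, rfl⟩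
      obtain ⟨k, hk⟩ := E_mem lam _ h r v
      refine ⟨(⟨r, hr⟩ : R) ^ p, ?_, rfl⟩
      rw [SetLike.mem_coe, MonoidHom.mem_ker, map_pow]
      show (E lam v r) ^ p = 1
      rw [← hk]
      show (ω ^ k) ^ p = 1
      rw [← zpow_natCast, ← zpow_mul, mul_comm, zpow_mul, zpow_natCast, hω, one_zpow]
  obtain ⟨x, hx, rfl⟩ := hle hs
  exact hx

/-- conjugation of loops -/
theorem E_conj (lam : Fin n → X → Ω) (x : X) (g s : FreeGroup (Fin n)) (hs : s⁻¹ • g • x = g • x) :
    E lam x (g⁻¹ * s * g) = (E lam (g • x) g)⁻¹ * E lam (g • x) s * E lam (g • x) g := by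
  rw [E_mul, E_mul, E_inv, inv_inv, mul_inv_rev, inv_inv, mul_smul, hs]

/-! ### Bypassing an edge -/

/-- vertices on the path with word `L` from `v` -/
def vert (L : List (Fin n × Bool)) (v : X) (k : ℕ) : X :=
  (FreeGroup.mk (L.take k) : FreeGroup (Fin n))⁻¹ • v

/-- start of the edge crossed by the letter number `k` -/
def est (L : List (Fin n × Bool)) (v : X) (k : ℕ) (b : Bool) : X :=
  cond b (vert L v k) (vert L v (k + 1))

theorem vert_succ (L : List (Fin n × Bool)) (v : X) (k : ℕ) (hk : k < L.length) :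
    vert L v (k + 1) = (FreeGroup.mk [L[k]] : FreeGroup (Fin n))⁻¹ • vert L v k := by
  unfold vert
  rw [← mul_smul, ← mul_inv_rev, FreeGroup.mul_mk, List.take_succ_eq_append_getElem hk]

theorem vert_add (L : List (Fin n × Bool)) (v : X) (s t : ℕ) :
    vert L v (s + t) =
      (FreeGroup.mk ((L.drop s).take t) : FreeGroup (Fin n))⁻¹ • vert L v s := by
  unfold vert
  rw [← mul_smul, ← mul_inv_rev, FreeGroup.mul_mk, List.take_add]

/-- label of a subpath is trivial if all crossed edges have trivial label -/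
theorem E_sub (lam : Fin n → X → Ω) (L : List (Fin n × Bool)) (v : X) (s : ℕ) : ∀ t : ℕ,
    s + t ≤ L.length →
    (∀ k, s ≤ k → k < s + t → ∀ hk : k < L.length, lam (L[k]).1 (est L v k (L[k]).2) = 1) →
    E lam (vert L v s) (FreeGroup.mk ((L.drop s).take t)) = 1 := by
  intro t
  induction t with
  | zero => intro _ _; exact E_one lam _
  | succ t ih =>
    intro hst h
    have hk : s + t < L.length := by omega
    have h1 : (L.drop s).take (t + 1) = (L.drop s).take t ++ [L[s + t]] := by
      rw [List.take_succ_eq_append_getElem (by rw [List.length_drop]; omega), List.getElem_drop]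
    rw [h1, ← FreeGroup.mul_mk, E_mul, ih (by omega) (fun k h1 h2 hk => h k h1 (by omega) hk),
      one_mul, ← vert_add]
    have h2 := h (s + t) (by omega) (by omega) hk
    have h3 := vert_succ L v (s + t) hk
    generalize L[s + t] = x at h2 h3
    rcases x with ⟨i, _ | _⟩
    · have hof : (FreeGroup.mk [(i, false)] : FreeGroup (Fin n)) = (FreeGroup.of i)⁻¹ := rfl
      rw [hof, inv_inv] at h3
      rw [hof, E_inv, E_of, ← h3]
      simp only [est, cond_false] at h2
      rw [h2, inv_one]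
    · have hof : (FreeGroup.mk [(i, true)] : FreeGroup (Fin n)) = FreeGroup.of i := rfl
      rw [hof, E_of]
      exact h2

/-- a closed nontrivial word produces, near each vertex, an edge that can be bypassed -/
theorem exists_bypass (w0 : FreeGroup (Fin n)) (hw0 : w0 ≠ 1) :
    ∃ W : Finset (FreeGroup (Fin n)), ∀ (X : Type) [MulAction (FreeGroup (Fin n)) X],
      (∀ v : X, w0 • v = v) → ∀ v : X, ∃ a : Fin n, ∃ k ∈ W, ∃ z : FreeGroup (Fin n),
        z⁻¹ • (k • v) = (FreeGroup.of a)⁻¹ • (k • v) ∧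
        ∀ (Ω : Type) [Group Ω] (lam : Fin n → X → Ω),
          (∀ i, ∀ k' ∈ W, ¬ (i = a ∧ k' • v = k • v) → lam i (k' • v) = 1) →
            E lam (k • v) z = 1 := by
  classical
  set L := w0.toWord with hL
  have hred : FreeGroup.IsReduced L := FreeGroup.isReduced_toWord
  have hne : L ≠ [] := fun h => hw0 (FreeGroup.toWord_eq_nil_iff.1 h)
  let W : Finset (FreeGroup (Fin n)) :=
    (Finset.range (L.length + 1)).image fun k => (FreeGroup.mk (L.take k) : FreeGroup (Fin n))⁻¹
  have hW : ∀ k, k ≤ L.length → (FreeGroup.mk (L.take k) : FreeGroup (Fin n))⁻¹ ∈ W := fun k hk =>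
    Finset.mem_image.2 ⟨k, Finset.mem_range.2 (by omega), rfl⟩
  refine ⟨W, ?_⟩
  intro X _ hfix v
  have hex : ∃ m : ℕ, 0 < m ∧ ∃ i, i + m ≤ L.length ∧ vert L v i = vert L v (i + m) := by
    refine ⟨L.length, List.length_pos_iff.2 hne, 0, by omega, ?_⟩
    unfold vert
    rw [zero_add, List.take_length, List.take_zero, FreeGroup.mk_toWord]
    have h1 : (FreeGroup.mk [] : FreeGroup (Fin n)) = 1 := rfl
    rw [h1, inv_one, one_smul]
    symm
    rw [inv_smul_eq_iff]
    exact (hfix v).symm
  set m := Nat.find hex with hm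
  obtain ⟨hm0, i, hiL, hi⟩ := Nat.find_spec hex
  rw [← hm] at hm0 hiL hi
  have hmin : ∀ i' m', 0 < m' → m' < m → i' + m' ≤ L.length →
      vert L v i' ≠ vert L v (i' + m') := fun i' m' h1 h2 h3 h4 =>
    Nat.find_min hex h2 ⟨h1, i', h3, h4⟩
  have hiL' : i < L.length := by omega
  have hsi := vert_succ L v i hiL'
  obtain ⟨a, b, hab⟩ : ∃ a b, L[i] = (a, b) := ⟨_, _, rfl⟩
  rw [hab] at hsi
  have hchain : ∀ k, ∀ hk : k + 1 < L.length, (L[k]).1 = (L[k + 1]).1 → (L[k]).2 = (L[k + 1]).2 := by
    intro k hk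
    unfold FreeGroup.IsReduced at hred
    exact List.isChain_iff_getElem.1 hred k hk
  have hkey : ∀ k, i + 1 ≤ k → k < i + 1 + (m - 1) → ∀ hk : k < L.length,
      ¬ ((L[k]).1 = a ∧ est L v k (L[k]).2 = est L v i b) := by
    intro k hk1 hk2 hk ⟨h1, h2⟩
    have hsk := vert_succ L v k hk
    have hadj : k = i + 1 → (L[k]).2 = b := by
      intro h
      have h3 := hchain i (by omega)
      have h4 : L[i + 1] = L[k] := by congr 1; exact h.symm
      rw [hab, h4] at h3
      exact (h3 h1.symm).symm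
    obtain ⟨a', b', hab'⟩ : ∃ a' b', L[k] = (a', b') := ⟨_, _, rfl⟩
    rw [hab'] at h1 h2 hsk hadj
    have h1' : a' = a := h1
    subst h1'
    rcases b with _ | _ <;> rcases b' with _ | _ <;>
      simp only [est, cond_true, cond_false] at h2 hadj
    · -- b = false, b' = false
      have := hmin (i + 1) (k - i) (by omega) (by omega) (by omega)
      apply this
      rw [← h2]; congr 1; omega
    · -- b = false, b' = true
      rcases Nat.eq_or_lt_of_le hk1 with h | h
      · exact Bool.noConfusion (hadj h.symm)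
      · have := hmin (i + 1) (k - (i + 1)) (by omega) (by omega) (by omega)
        apply this
        rw [← h2]; congr 1; omega
    · -- b = true, b' = false
      rcases Nat.eq_or_lt_of_le hk1 with h | h
      · exact Bool.noConfusion (hadj h.symm)
      · have := hmin (i + 1) (k - (i + 1)) (by omega) (by omega) (by omega)
        apply this
        have h5 : i + 1 + (k - (i + 1)) = k := by omega
        rw [h5, hsi, ← h2, hsk]
        have hf : (FreeGroup.mk [(a', false)] : FreeGroup (Fin n)) = (FreeGroup.of a')⁻¹ := rfl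
        have ht : (FreeGroup.mk [(a', true)] : FreeGroup (Fin n)) = FreeGroup.of a' := rfl
        rw [hf, ht, inv_inv, inv_smul_smul]
    · -- b = true, b' = true
      have := hmin i (k - i) (by omega) (by omega) (by omega)
      apply this
      rw [← h2]; congr 1; omega
  -- the rest of the loop
  set M := (FreeGroup.mk ((L.drop (i + 1)).take (m - 1)) : FreeGroup (Fin n)) with hM
  have hMv : M⁻¹ • vert L v (i + 1) = vert L v i := by
    rw [hM, ← vert_add, hi]; congr 1; omega
  have hME : ∀ (Ω : Type) [Group Ω] (lam : Fin n → X → Ω),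
      (∀ i', ∀ k' ∈ W, ¬ (i' = a ∧ k' • v = est L v i b) → lam i' (k' • v) = 1) →
      E lam (vert L v (i + 1)) M = 1 := by
    intro Ω _ lam h
    apply E_sub lam L v (i + 1) (m - 1) (by omega)
    intro k hk1 hk2 hk
    have h1 := hkey k hk1 hk2 hk
    rcases hb : (L[k]).2 with _ | _
    · rw [hb] at h1
      exact h _ _ (hW (k + 1) (by omega)) h1
    · rw [hb] at h1
      exact h _ _ (hW k (by omega)) h1
  rcases b with _ | _
  · -- false
    refine ⟨a, _, hW (i + 1) (by omega), M, ?_, ?_⟩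
    · show M⁻¹ • vert L v (i + 1) = (FreeGroup.of a)⁻¹ • vert L v (i + 1)
      rw [hMv, hsi]
      have hf : (FreeGroup.mk [(a, false)] : FreeGroup (Fin n)) = (FreeGroup.of a)⁻¹ := rfl
      rw [hf, inv_inv, inv_smul_smul]
    · intro Ω _ lam h
      exact hME Ω lam h
  · refine ⟨a, _, hW i (by omega), M⁻¹, ?_, ?_⟩
    · show M⁻¹⁻¹ • vert L v i = (FreeGroup.of a)⁻¹ • vert L v i
      have ht : (FreeGroup.mk [(a, true)] : FreeGroup (Fin n)) = FreeGroup.of a := rfl
      rw [ht] at hsi
      rw [← hsi, inv_inv, ← hMv, smul_inv_smul]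
    · intro Ω _ lam h
      show E lam (vert L v i) M⁻¹ = 1
      rw [E_inv]
      have : M • vert L v i = vert L v (i + 1) := by rw [← hMv, smul_inv_smul]
      rw [this, hME Ω lam h, inv_one]

/-- every vertex can be reached from the base point by a path with trivial label -/
theorem exists_path (lam : Fin n → X → Ω) (x0 : X)
    (hE : ∀ (i : Fin n) (v : X), lam i v ≠ 1 →
      ∃ z : FreeGroup (Fin n), z⁻¹ • v = (FreeGroup.of i)⁻¹ • v ∧ E lam v z = 1)
    (w : FreeGroup (Fin n)) :
    ∃ u : FreeGroup (Fin n), u⁻¹ • x0 = w⁻¹ • x0 ∧ E lam x0 u = 1 := by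
  have key : ∀ w : FreeGroup (Fin n), ∀ v : X,
      (∃ u : FreeGroup (Fin n), u⁻¹ • x0 = v ∧ E lam x0 u = 1) →
      (∃ u : FreeGroup (Fin n), u⁻¹ • x0 = w⁻¹ • v ∧ E lam x0 u = 1) := by
    intro w
    induction w using FreeGroup.induction_on with
    | C1 => intro v h; simpa using h
    | of i =>
      rintro v ⟨u, rfl, hu⟩
      show ∃ u' : FreeGroup (Fin n), u'⁻¹ • x0 = (FreeGroup.of i)⁻¹ • u⁻¹ • x0 ∧ _
      by_cases h1 : lam i (u⁻¹ • x0) = 1
      · refine ⟨u * FreeGroup.of i, by rw [mul_inv_rev, mul_smul], ?_⟩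
        rw [E_mul, hu, one_mul, E_of, h1]
      · obtain ⟨z, hz, hz2⟩ := hE i _ h1
        refine ⟨u * z, by rw [mul_inv_rev, mul_smul, hz], ?_⟩
        rw [E_mul, hu, one_mul, hz2]
    | inv_of i _ =>
      rintro v ⟨u, rfl, hu⟩
      show ∃ u' : FreeGroup (Fin n), u'⁻¹ • x0 = (FreeGroup.of i)⁻¹⁻¹ • u⁻¹ • x0 ∧ _
      rw [inv_inv]
      by_cases h1 : lam i (FreeGroup.of i • u⁻¹ • x0) = 1
      · refine ⟨u * (FreeGroup.of i)⁻¹, by rw [mul_inv_rev, inv_inv, mul_smul], ?_⟩
        rw [E_mul, hu, one_mul, E_inv, E_of, h1, inv_one]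
      · obtain ⟨z, hz, hz2⟩ := hE i _ h1
        rw [inv_smul_smul, inv_smul_eq_iff] at hz
        refine ⟨u * z⁻¹, by rw [mul_inv_rev, inv_inv, mul_smul, hz], ?_⟩
        rw [E_mul, hu, one_mul, E_inv, ← hz, hz2, inv_one]
    | mul x y hx hy =>
      intro v h
      obtain ⟨u, hu, hu2⟩ := hy _ (hx v h)
      refine ⟨u, ?_, hu2⟩
      rw [hu, mul_inv_rev, mul_smul]
  exact key w x0 ⟨1, by simp, E_one lam x0⟩

end Defs

/-! ### Far apart points in an infinite set -/

theorem exists_far {G : Type} [Group G] (X : Type) [MulAction G X] [Infinite X] (D : Finset G) :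
    ∃ f : ℕ → X, ∀ i j, i ≠ j → ∀ d ∈ D, d • f i ≠ f j := by
  classical
  obtain ⟨f, -, hf⟩ := exists_seq_of_forall_finset_exists (α := X) (fun _ => True)
    (fun x y => ∀ d ∈ D, d • x ≠ y ∧ d • y ≠ x) (by
      intro s _
      obtain ⟨y, hy⟩ := Infinite.exists_notMem_finset
        ((s ×ˢ D).image (fun p => p.2 • p.1) ∪ (s ×ˢ D).image (fun p => p.2⁻¹ • p.1))
      rw [Finset.mem_union, not_or] at hy
      refine ⟨y, trivial, fun x hx d hd => ⟨fun h => hy.1 ?_, fun h => hy.2 ?_⟩⟩
      · exact Finset.mem_image.2 ⟨(x, d), Finset.mem_product.2 ⟨hx, hd⟩, h⟩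
      · exact Finset.mem_image.2 ⟨(x, d), Finset.mem_product.2 ⟨hx, hd⟩, by simp [← h]⟩)
  refine ⟨f, fun i j hij d hd => ?_⟩
  rcases lt_or_gt_of_ne hij with h | h
  · exact (hf i j h d hd).1
  · exact (hf j i h d hd).2

/-! ### A group generated by elements of order `p` containing a free group -/

section Om

variable (n p : ℕ)

/-- shifting the second coordinate -/
def shHom : Multiplicative (ZMod p) →* MulAut (FreeGroup (Fin n × ZMod p)) where
  toFun c := FreeGroup.freeGroupCongr
    (Equiv.prodCongr (Equiv.refl _) (Equiv.addRight (Multiplicative.toAdd c)))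
  map_one' := by
    ext x
    simp
  map_mul' a b := by
    apply MulEquiv.toMonoidHom_injective
    ext x
    show FreeGroup.of (x.1, x.2 + (Multiplicative.toAdd a + Multiplicative.toAdd b)) =
      FreeGroup.of (x.1, x.2 + Multiplicative.toAdd b + Multiplicative.toAdd a)
    rw [add_comm (Multiplicative.toAdd a), ← add_assoc]

/-- the group -/
abbrev Om : Type := FreeGroup (Fin n × ZMod p) ⋊[shHom n p] Multiplicative (ZMod p)

/-- element of order `p` -/
def sig : Om n p := SemidirectProduct.inr (Multiplicative.ofAdd 1)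

/-- free generators -/
def xg (i : Fin n) : Om n p := SemidirectProduct.inl (FreeGroup.of (i, 0))

/-- the elements of order `p` -/
def om : Option (Fin n) → Om n p
  | none => sig n p
  | some i => xg n p i * sig n p * (xg n p i)⁻¹

theorem sig_pow : (sig n p) ^ p = 1 := by
  unfold sig
  rw [← map_pow, ← ofAdd_nsmul]
  simp

theorem om_pow (j : Option (Fin n)) : (om n p j) ^ p = 1 := by
  cases j with
  | none => exact sig_pow n p
  | some i =>
    show (xg n p i * sig n p * (xg n p i)⁻¹) ^ p = 1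
    rw [conj_pow, sig_pow]; simp

/-- the hom from the free group -/
def zeta : FreeGroup (Fin n) →* Om n p :=
  FreeGroup.lift fun i => om n p (some i) * (om n p none)⁻¹

theorem zeta_of (i : Fin n) : om n p (some i) * (om n p none)⁻¹ =
    SemidirectProduct.inl (FreeGroup.of (i, 0) * (FreeGroup.of (i, 1))⁻¹) := by
  show xg n p i * sig n p * (xg n p i)⁻¹ * (sig n p)⁻¹ = _
  have h1 : sig n p * (xg n p i)⁻¹ * (sig n p)⁻¹ =
      SemidirectProduct.inl ((FreeGroup.of (i, 1))⁻¹) := by
    have := SemidirectProduct.inl_aut (φ := shHom n p) (Multiplicative.ofAdd 1)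
      ((FreeGroup.of (i, 0))⁻¹)
    have h2 : shHom n p (Multiplicative.ofAdd 1) ((FreeGroup.of (i, 0))⁻¹) =
        (FreeGroup.of (i, 1))⁻¹ := by
      simp [shHom]
    rw [h2] at this
    rw [this]
    simp [sig, xg]
  rw [mul_assoc, mul_assoc, ← mul_assoc (sig n p), h1, map_mul]
  rfl

theorem zeta_injective [hp : Fact p.Prime] : Injective (zeta n p) := by
  have h1 : zeta n p = (SemidirectProduct.inl).comp (FreeGroup.lift fun i =>
      FreeGroup.of ((i, 0) : Fin n × ZMod p) * (FreeGroup.of (i, 1))⁻¹) := by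
    ext1 i
    simp only [zeta, MonoidHom.comp_apply, FreeGroup.lift_apply_of]
    exact zeta_of n p i
  rw [h1]
  apply Injective.comp SemidirectProduct.inl_injective
  let ret : FreeGroup (Fin n × ZMod p) →* FreeGroup (Fin n) :=
    FreeGroup.lift fun x => if x.2 = 0 then FreeGroup.of x.1 else 1
  have h2 : ret.comp (FreeGroup.lift fun i =>
      FreeGroup.of ((i, 0) : Fin n × ZMod p) * (FreeGroup.of (i, 1))⁻¹) = MonoidHom.id _ := by
    ext i
    simp [ret]
  intro x y hxy
  have h3 := DFunLike.congr_fun h2 x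
  have h4 := DFunLike.congr_fun h2 y
  simp only [MonoidHom.comp_apply, MonoidHom.id_apply] at h3 h4
  rw [← h3, ← h4]
  exact congrArg ret hxy

end Om

/-- Main theorem: relatively free version for actions. -/
theorem finite_of_action {n : ℕ} (N : Subgroup (FreeGroup (Fin n))) [N.Normal]
    (hfi : ∀ φ : FreeGroup (Fin n) →* FreeGroup (Fin n), ∀ x ∈ N, φ x ∈ N)
    (hN : N ≠ ⊥)
    (hS : ∃ S : Finset (FreeGroup (Fin n)),
      Subgroup.normalClosure (S : Set (FreeGroup (Fin n))) = N)
    (X : Type) [MulAction (FreeGroup (Fin n)) X] [MulAction.IsPretransitive (FreeGroup (Fin n)) X]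
    (x0 : X) (R : Subgroup (FreeGroup (Fin n))) (hR : R = MulAction.stabilizer (FreeGroup (Fin n)) x0)
    (p : ℕ) [hp : Fact p.Prime]
    (hle : N ≤ ⁅R, R⁆ ⊔ Subgroup.closure {g | ∃ r ∈ R, g = r ^ p}) : Finite X := by
  classical
  by_contra hinf
  rw [not_finite_iff_infinite] at hinf
  obtain ⟨S, hS⟩ := hS
  have hSN : ∀ s ∈ S, s ∈ N := fun s hs => by rw [← hS]; exact Subgroup.subset_normalClosure hs
  have hPhiR : ⁅R, R⁆ ⊔ Subgroup.closure {g | ∃ r ∈ R, g = r ^ p} ≤ R := by
    apply sup_le (Subgroup.commutator_le_self R)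
    rw [Subgroup.closure_le]
    rintro _ ⟨r, hr, rfl⟩
    exact pow_mem hr p
  have hNtriv : ∀ s ∈ N, ∀ v : X, s • v = v := by
    intro s hs v
    obtain ⟨g, rfl⟩ := MulAction.exists_smul_eq (FreeGroup (Fin n)) x0 v
    have h1 : g⁻¹ * s * g⁻¹⁻¹ ∈ N := (inferInstance : N.Normal).conj_mem s hs g⁻¹
    have h2 : g⁻¹ * s * g⁻¹⁻¹ ∈ R := hPhiR (hle h1)
    rw [hR, MulAction.mem_stabilizer_iff, inv_inv, mul_smul, mul_smul, inv_smul_eq_iff] at h2
    exact h2
  -- a nontrivial element
  obtain ⟨⟨w, hw⟩, hw1'⟩ := Subgroup.ne_bot_iff_exists_ne_one.1 hN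
  have hw1 : w ≠ 1 := fun h => hw1' (Subtype.ext h)
  obtain ⟨W, hW⟩ := exists_bypass w hw1
  have hW' := hW X (hNtriv w hw)
  choose av kv hkv zv hzv hEv using hW'
  -- dependence sets of the relators
  choose Ds hDs using (fun s : FreeGroup (Fin n) => exists_dep s)
  let D1 : Finset (FreeGroup (Fin n)) := S.biUnion Ds
  let D2 : Finset (FreeGroup (Fin n)) :=
    ((W ×ˢ W) ×ˢ (D1 ×ˢ D1)).image fun x => x.1.2⁻¹ * x.2.2 * x.2.1⁻¹ * x.1.1
  let D3 : Finset (FreeGroup (Fin n)) := (W ×ˢ W).image fun x => x.2⁻¹ * x.1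
  obtain ⟨f, hf⟩ := exists_far X (D2 ∪ D3)
  let ι : Option (Fin n) → ℕ := fun j => Option.elim j 0 (fun i => i.1 + 1)
  have hι : Injective ι := by
    intro x y hxy
    cases x with
    | none =>
      cases y with
      | none => rfl
      | some j => simp [ι] at hxy
    | some i =>
      cases y with
      | none => simp [ι] at hxy
      | some j =>
        have : i.1 = j.1 := by simpa [ι] using hxy
        rw [Fin.ext this]
  let g : Option (Fin n) → X := fun j => f (ι j)
  have hg : ∀ i j, i ≠ j → ∀ d ∈ D2 ∪ D3, d • g i ≠ g j := fun i j hij =>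
    hf _ _ (fun h => hij (hι h))
  -- no two special points have common neighbours
  have hgW : ∀ i j, i ≠ j → ∀ k ∈ W, ∀ k' ∈ W, k • g i ≠ k' • g j := by
    intro i j hij k hk k' hk' h
    apply hg i j hij (k'⁻¹ * k) (Finset.mem_union_right _
      (Finset.mem_image.2 ⟨(k, k'), Finset.mem_product.2 ⟨hk, hk'⟩, rfl⟩))
    rw [mul_smul, h, inv_smul_smul]
  let u : Option (Fin n) → X := fun j => kv (g j) • g j
  have huinj : Injective u := by
    intro i j hij
    by_contra hne
    exact hgW i j hne _ (hkv _) _ (hkv _) hij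
  let lam : Fin n → X → Om n p := fun i v =>
    if h : ∃ j, u j = v ∧ av (g j) = i then om n p h.choose else 1
  have hlamu : ∀ j, lam (av (g j)) (u j) = om n p j := by
    intro j
    have h : ∃ j', u j' = u j ∧ av (g j') = av (g j) := ⟨j, rfl, rfl⟩
    simp only [lam]
    rw [dif_pos h]
    congr 1
    exact huinj h.choose_spec.1
  have hlam1 : ∀ i v, (∀ j, ¬ (u j = v ∧ av (g j) = i)) → lam i v = 1 := by
    intro i v hv
    simp only [lam]
    rw [dif_neg]
    rintro ⟨j, hj⟩
    exact hv j hj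
  have hlamne : ∀ i v, lam i v ≠ 1 → ∃ j, u j = v ∧ av (g j) = i := by
    intro i v h
    by_contra hcon
    push Not at hcon
    exact h (hlam1 i v (fun j hj => hcon j hj.1 hj.2))
  -- bypass
  have hbypj : ∀ j, E lam (u j) (zv (g j)) = 1 := by
    intro j
    apply hEv
    intro i k' hk' hne
    apply hlam1
    rintro j' ⟨h1, h2⟩
    by_cases hjj : j' = j
    · subst hjj
      exact hne ⟨h2.symm, h1.symm⟩
    · exact hgW j' j hjj _ (hkv _) _ hk' h1
  have hbyp : ∀ (i : Fin n) (v : X), lam i v ≠ 1 →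
      ∃ z : FreeGroup (Fin n), z⁻¹ • v = (FreeGroup.of i)⁻¹ • v ∧ E lam v z = 1 := by
    intro i v h
    obtain ⟨j, rfl, rfl⟩ := hlamne i v h
    exact ⟨zv (g j), hzv _, hbypj j⟩
  -- relators are killed
  have hcyc : ∀ (v : X) (s : FreeGroup (Fin n)), s ∈ S → E lam v s = 1 := by
    intro v s hs
    -- there is ω of order dividing p such that all labels near v lie in its cyclic group
    obtain ⟨ω, hω, hloc⟩ : ∃ ω : Om n p, ω ^ p = 1 ∧ ∀ d ∈ Ds s, ∀ i,
        lam i (d • v) ∈ Subgroup.zpowers ω := by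
      by_cases hex : ∃ d ∈ Ds s, ∃ j, u j = d • v
      · obtain ⟨d, hd, j, hj⟩ := hex
        refine ⟨om n p j, om_pow n p j, ?_⟩
        intro d' hd' i
        by_cases h : lam i (d' • v) = 1
        · rw [h]; exact one_mem _
        · obtain ⟨j', hj', hi'⟩ := hlamne _ _ h
          by_cases hjj : j' = j
          · subst hjj
            rw [← hi', ← hj', hlamu]
            exact Subgroup.mem_zpowers _
          · exfalso
            have hdD : d ∈ D1 := Finset.mem_biUnion.2 ⟨s, hs, hd⟩
            have hdD' : d' ∈ D1 := Finset.mem_biUnion.2 ⟨s, hs, hd'⟩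
            -- u j' = d' v, u j = d v
            apply hg j' j hjj ((kv (g j))⁻¹ * d * d'⁻¹ * kv (g j')) (Finset.mem_union_left _
              (Finset.mem_image.2 ⟨((kv (g j'), kv (g j)), (d', d)), ?_, rfl⟩))
            · have h1 : kv (g j') • g j' = d' • v := hj'
              have h2 : kv (g j) • g j = d • v := hj
              rw [mul_smul, h1, mul_smul, inv_smul_smul, mul_smul, ← h2, inv_smul_smul]
            · exact Finset.mem_product.2 ⟨Finset.mem_product.2 ⟨hkv _, hkv _⟩,
                Finset.mem_product.2 ⟨hdD', hdD⟩⟩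
      · refine ⟨1, one_pow _, ?_⟩
        intro d hd i
        rw [hlam1 i (d • v) (fun j hj => hex ⟨d, hd, j, hj.1⟩)]
        exact one_mem _
    let lam' : Fin n → X → Om n p := fun i x =>
      if lam i x ∈ Subgroup.zpowers ω then lam i x else 1
    have hlam' : ∀ i x, lam' i x ∈ Subgroup.zpowers ω := by
      intro i x
      simp only [lam']
      split_ifs with h
      · exact h
      · exact one_mem _
    have heq : E lam v s = E lam' v s := by
      apply hDs s X (Om n p) lam lam' v
      intro d hd i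
      simp only [lam']
      rw [if_pos (hloc d hd i)]
    rw [heq]
    obtain ⟨h, rfl⟩ := MulAction.exists_smul_eq (FreeGroup (Fin n)) x0 v
    have h1 : h⁻¹ * s * h⁻¹⁻¹ ∈ N := (inferInstance : N.Normal).conj_mem s (hSN s hs) h⁻¹
    have h2 := E_eq_one_of_cyclic p lam' ω hω hlam' x0 R hR _ (hle h1)
    have h3 : s⁻¹ • h • x0 = h • x0 := hNtriv _ (inv_mem (hSN s hs)) _
    rw [inv_inv, E_conj lam' x0 h s h3] at h2
    have h4 : E lam' (h • x0) s = E lam' (h • x0) h * 1 * (E lam' (h • x0) h)⁻¹ := by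
      rw [← h2]; group
    rw [h4, mul_one, mul_inv_cancel]
  -- N is contained in the kernel of all evaluations
  have hkill : ∀ s ∈ N, ∀ v : X, E lam v s = 1 := by
    let Kr : Subgroup (FreeGroup (Fin n)) :=
      { carrier := {s | (∀ v : X, s • v = v) ∧ ∀ v : X, E lam v s = 1}
        one_mem' := ⟨fun v => one_smul _ v, fun v => E_one lam v⟩
        mul_mem' := by
          rintro a b ⟨ha, ha'⟩ ⟨hb, hb'⟩
          exact ⟨fun v => by rw [mul_smul, hb, ha], fun v => by rw [E_mul, ha', hb', one_mul]⟩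
        inv_mem' := by
          rintro a ⟨ha, ha'⟩
          exact ⟨fun v => by rw [inv_smul_eq_iff, ha], fun v => by rw [E_inv, ha', inv_one]⟩ }
    have hKn : Kr.Normal := by
      refine ⟨?_⟩
      rintro s ⟨hs1, hs2⟩ h
      refine ⟨fun v => by rw [mul_smul, mul_smul, hs1, smul_inv_smul], fun v => ?_⟩
      have h3 : s⁻¹ • h⁻¹ • v = h⁻¹ • v := by rw [inv_smul_eq_iff, hs1]
      have := E_conj lam v h⁻¹ s h3
      rw [inv_inv, hs2, mul_one, inv_mul_cancel] at this
      exact this
    have hle2 : N ≤ Kr := by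
      have : Subgroup.normalClosure (S : Set (FreeGroup (Fin n))) ≤ Kr := by
        apply Subgroup.normalClosure_le_normal
        intro s hs
        exact ⟨hNtriv s (hSN s hs), fun v => hcyc v s hs⟩
      intro x hx
      apply this
      rw [hS]; exact hx
    intro s hs v
    exact (hle2 hs).2 v
  -- loops with prescribed labels
  have hloop : ∀ j, ∃ y ∈ MulAction.stabilizer (FreeGroup (Fin n)) x0, E lam x0 y = om n p j := by
    intro j
    obtain ⟨h, hh⟩ := MulAction.exists_smul_eq (FreeGroup (Fin n)) x0 (u j)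
    obtain ⟨q, hq, hq2⟩ := exists_path lam x0 hbyp h⁻¹
    rw [inv_inv, hh] at hq
    -- loop a z⁻¹ at u j
    set r := FreeGroup.of (av (g j)) * (zv (g j))⁻¹ with hr
    have hzz : (zv (g j))⁻¹ • u j = (FreeGroup.of (av (g j)))⁻¹ • u j := hzv (g j)
    have hrE : E lam (u j) r = om n p j := by
      rw [hr, E_mul, E_of, hlamu, E_inv, ← hzz, smul_inv_smul, hbypj, inv_one, mul_one]
    have hrs : r⁻¹ • u j = u j := by
      rw [hr, mul_inv_rev, inv_inv, mul_smul, ← hzz, smul_inv_smul]
    refine ⟨q * r * q⁻¹, ?_, ?_⟩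
    · rw [MulAction.mem_stabilizer_iff, mul_smul, mul_smul, hq]
      rw [inv_smul_eq_iff] at hrs
      rw [← hrs, ← hq, smul_inv_smul]
    · have h3 : r⁻¹ • q⁻¹ • x0 = q⁻¹ • x0 := by rw [hq]; exact hrs
      have h4 := E_conj lam x0 q⁻¹ r h3
      rw [inv_inv] at h4
      rw [h4, hq, hrE]
      have h5 : E lam (u j) q⁻¹ = 1 := by
        rw [E_inv, ← hq, smul_inv_smul, hq2, inv_one]
      rw [h5, inv_one, one_mul, mul_one]
  choose y hyR hyE using hloop
  let θ : FreeGroup (Fin n) →* MulAction.stabilizer (FreeGroup (Fin n)) x0 :=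
    FreeGroup.lift fun i => (⟨y (some i), hyR _⟩ : MulAction.stabilizer (FreeGroup (Fin n)) x0) *
      (⟨y none, hyR _⟩ : MulAction.stabilizer (FreeGroup (Fin n)) x0)⁻¹
  have h1 : ((θ w : MulAction.stabilizer (FreeGroup (Fin n)) x0) : FreeGroup (Fin n)) ∈ N :=
    hfi ((MulAction.stabilizer (FreeGroup (Fin n)) x0).subtype.comp θ) w hw
  have h2 : ev lam x0 (θ w) = 1 := hkill _ h1 x0
  have h3 : (ev lam x0).comp θ = zeta n p := by
    ext1 i
    simp only [MonoidHom.comp_apply, θ, zeta, FreeGroup.lift_apply_of, map_mul, map_inv]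
    show E lam x0 (y (some i)) * (E lam x0 (y none))⁻¹ = _
    rw [hyE, hyE]
  have h4 : zeta n p w = 1 := by rw [← h3]; exact h2
  exact hw1 ((injective_iff_map_eq_one _).1 (zeta_injective n p) w h4)

/-- Main theorem on subgroups. -/
theorem finiteIndex_of_le {n : ℕ} (N : Subgroup (FreeGroup (Fin n))) [N.Normal]
    (hfi : ∀ φ : FreeGroup (Fin n) →* FreeGroup (Fin n), ∀ x ∈ N, φ x ∈ N)
    (hN : N ≠ ⊥)
    (hS : ∃ S : Finset (FreeGroup (Fin n)),
      Subgroup.normalClosure (S : Set (FreeGroup (Fin n))) = N)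
    (R : Subgroup (FreeGroup (Fin n))) (p : ℕ) (hp : p.Prime)
    (hle : N ≤ ⁅R, R⁆ ⊔ Subgroup.closure {g | ∃ r ∈ R, g = r ^ p}) : R.FiniteIndex := by
  have := Fact.mk hp
  have h1 : Finite (FreeGroup (Fin n) ⧸ R) := by
    refine finite_of_action N hfi hN hS (FreeGroup (Fin n) ⧸ R)
      ((1 : FreeGroup (Fin n)) : FreeGroup (Fin n) ⧸ R) R ?_ p hle
    rw [MulAction.stabilizer_quotient]
  exact Subgroup.finiteIndex_of_finite_quotient

end Pool.Agent.H12RelFree.Wr
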